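import Pool.Agent.W5h29.SB.Hit2

/-!
Exponential moments of the number of pairs formed by an element of the random set of one scale and
a point of the curves of a larger scale, with a given sum modulo the square of the larger prime.
-/

namespace Pool.Agent.W5h29.SB

open Finset Pool.Agent.R447.SB

lemma fib {P : ℕ} (cw : Curve P) (hP : 0 < P) (k ρ : ℕ) :
    ((univ : Finset (Idx P)).filter (fun ι => k + cw.w ι ≡ ρ [MOD P ^ 2])).card ≤ 12 := by
  set X := (univ : Finset (Idx P)).filter (fun ι => k + cw.w ι ≡ ρ [MOD P ^ 2]) with hX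
  have hq : 0 < P ^ 2 := by positivity
  have hsub : X ×ˢ X ⊆ prs cw (ρ + ρ + (P ^ 2 - 1) * (k + k)) := by
    rintro ⟨a, b⟩ hab
    rw [mem_product] at hab
    unfold prs
    rw [mem_filter]
    refine ⟨mem_univ _, ?_⟩
    show cw.w a + cw.w b ≡ ρ + ρ + (P ^ 2 - 1) * (k + k) [MOD P ^ 2]
    have h1 : k + cw.w a ≡ ρ [MOD P ^ 2] := (mem_filter.1 hab.1).2
    have h2 : k + cw.w b ≡ ρ [MOD P ^ 2] := (mem_filter.1 hab.2).2
    have h3 := Nat.ModEq.add_right ((P ^ 2 - 1) * (k + k)) (Nat.ModEq.add h1 h2)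
    refine Nat.ModEq.trans ?_ h3
    obtain ⟨m', hm'⟩ : ∃ m', P ^ 2 = m' + 1 := ⟨P ^ 2 - 1, by omega⟩
    have e : k + cw.w a + (k + cw.w b) + (P ^ 2 - 1) * (k + k) =
        cw.w a + cw.w b + P ^ 2 * (k + k) := by
      rw [hm', Nat.add_sub_cancel]; ring
    rw [e]
    exact (Nat.modEq_iff_dvd' (by omega)).2 (by simp)
  have h := (card_le_card hsub).trans (prs_card cw _)
  rw [card_product] at h
  nlinarith

lemma sum_shift {m : ℕ} (hm : 0 < m) (a : ℕ) (g : ℕ → ℕ) :
    ∑ u ∈ range m, g ((a + u) % m) = ∑ z ∈ range m, g z := by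
  have hinj : Set.InjOn (fun u => (a + u) % m) (range m : Set ℕ) := by
    intro u hu u' hu' h
    exact shift_inj (by simpa using hu) (by simpa using hu') h
  have himg : (range m).image (fun u => (a + u) % m) = range m := by
    refine eq_of_subset_of_card_le ?_ ?_
    · intro z hz
      rw [mem_image] at hz
      obtain ⟨u, -, rfl⟩ := hz
      exact mem_range.2 (Nat.mod_lt _ hm)
    · rw [card_image_of_injOn hinj]
  conv_rhs => rw [← himg]
  rw [sum_image hinj]

lemma exp_two {x : ℝ} (hx : 0 ≤ x) : Real.exp x ≤ 1 + x + x ^ 2 * Real.exp x := by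
  have h1 : Real.exp x - 1 ≤ x * Real.exp x := by
    have h := Real.add_one_le_exp (-x)
    have h2 : Real.exp (-x) * Real.exp x = 1 := by rw [← Real.exp_add]; simp
    nlinarith [Real.exp_pos x]
  nlinarith [mul_le_mul_of_nonneg_left h1 hx]

variable {p P : ℕ} (cv : Curve p) (cw : Curve P)

/-- number of pairs `(s, ι)` with the right class -/
def cn (R ρ τ : ℕ) (ι' : Idx p) (z : ℕ) : ℕ :=
  ∑ s ∈ Ico 1 R, ((univ : Finset (Idx P)).filter
    (fun ι => τ + cv.w ι' + p ^ 2 * z + s * (p ^ 2 * p ^ 2) + cw.w ι ≡ ρ [MOD P ^ 2])).card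

/-- the contribution of one block -/
def ff (R ρ τ : ℕ) (ι' : Idx p) (u : ℕ) : ℕ :=
  ∑ κ : Idx p, cn cv cw R ρ τ ι' ((cv.w κ + u) % p ^ 2)

/-- the contribution of one scale -/
def acl (R ρ τ : ℕ) (t : Idx p → ℕ) : ℕ :=
  ∑ ι : Idx P, ((scaleSet cv R τ t).filter (fun a => a + cw.w ι ≡ ρ [MOD P ^ 2])).card

lemma acl_le (R ρ τ : ℕ) (t : Idx p → ℕ) :
    acl cv cw R ρ τ t ≤ ∑ ι' : Idx p, ff cv cw R ρ τ ι' (t ι') := by
  classical
  have h1 : ∀ ι : Idx P, ((scaleSet cv R τ t).filter (fun a => a + cw.w ι ≡ ρ [MOD P ^ 2])).card ≤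
      ∑ ι' : Idx p, ∑ κ : Idx p, ∑ s ∈ Ico 1 R,
        (if (τ + cv.w ι' + p ^ 2 * ((cv.w κ + t ι') % p ^ 2) + s * (p ^ 2 * p ^ 2) + cw.w ι ≡ ρ
          [MOD P ^ 2]) then 1 else 0) := by
    intro ι
    have hsub : (scaleSet cv R τ t).filter (fun a => a + cw.w ι ≡ ρ [MOD P ^ 2]) ⊆
        (((Ico 1 R) ×ˢ ((univ : Finset (Idx p)) ×ˢ (univ : Finset (Idx p)))).filter
          (fun q => el cv τ t q.1 q.2.1 q.2.2 + cw.w ι ≡ ρ [MOD P ^ 2])).image
          (fun q => el cv τ t q.1 q.2.1 q.2.2) := by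
      intro a ha
      rw [mem_filter] at ha
      obtain ⟨ha1, ha2⟩ := ha
      obtain ⟨s, ι', κ, h1, h2, rfl⟩ := (mem_scaleSet cv).1 ha1
      rw [mem_image]
      refine ⟨(s, (ι', κ)), ?_, rfl⟩
      rw [mem_filter, mem_product, mem_product, mem_Ico]
      exact ⟨⟨⟨h1, h2⟩, mem_univ _, mem_univ _⟩, ha2⟩
    refine (card_le_card hsub).trans (card_image_le.trans ?_)
    rw [card_filter, sum_product, sum_comm]
    rw [sum_product]
    rfl
  unfold acl ff cn
  refine (sum_le_sum fun ι _ => h1 ι).trans ?_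
  rw [sum_comm]
  refine sum_le_sum fun ι' _ => ?_
  rw [sum_comm]
  refine sum_le_sum fun κ _ => ?_
  rw [sum_comm]
  refine sum_le_sum fun s _ => ?_
  rw [card_filter]

lemma cn_le (hP : 0 < P) (R ρ τ : ℕ) (ι' : Idx p) (z : ℕ) : cn cv cw R ρ τ ι' z ≤ 12 * R := by
  unfold cn
  calc _ ≤ ∑ s ∈ Ico 1 R, 12 := sum_le_sum fun s _ => fib cw hP _ _
    _ ≤ 12 * R := by
        rw [sum_const, Nat.card_Ico, smul_eq_mul]
        calc (R - 1) * 12 ≤ R * 12 := Nat.mul_le_mul_right _ (Nat.sub_le _ _)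
          _ = 12 * R := by ring

lemma cn_sum (hc : Nat.Coprime (p ^ 2) (P ^ 2)) (hmq : p ^ 2 ≤ P ^ 2) (R ρ τ : ℕ) (ι' : Idx p) :
    ∑ z ∈ range (p ^ 2), cn cv cw R ρ τ ι' z ≤ 6 * P * R := by
  classical
  unfold cn
  rw [sum_comm]
  calc _ ≤ ∑ s ∈ Ico 1 R, 6 * P := by
        refine sum_le_sum fun s _ => ?_
        simp_rw [card_filter]
        rw [sum_comm]
        calc _ ≤ ∑ ι : Idx P, 1 := by
              refine sum_le_sum fun ι _ => ?_
              rw [← card_filter, card_le_one]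
              intro z hz z' hz'
              rw [mem_filter, mem_range] at hz hz'
              have e1 : ∀ y, τ + cv.w ι' + p ^ 2 * y + s * (p ^ 2 * p ^ 2) + cw.w ι =
                  τ + cv.w ι' + p ^ 2 * y + (s * (p ^ 2 * p ^ 2) + cw.w ι) := fun y => by ring
              rw [e1] at hz hz'
              exact z_unique hc hmq hz.1 hz'.1 hz.2 hz'.2
          _ = 6 * P := by rw [sum_const, card_univ, card_idx]; simp
    _ ≤ 6 * P * R := by
        rw [sum_const, Nat.card_Ico, smul_eq_mul, mul_comm]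
        exact Nat.mul_le_mul_left _ (Nat.sub_le _ _)

lemma ff_le (hP : 0 < P) (R ρ τ : ℕ) (ι' : Idx p) (u : ℕ) :
    ff cv cw R ρ τ ι' u ≤ 72 * R * p := by
  unfold ff
  calc _ ≤ ∑ κ : Idx p, 12 * R := sum_le_sum fun κ _ => cn_le cv cw hP _ _ _ _ _
    _ = 72 * R * p := by rw [sum_const, card_univ, card_idx, smul_eq_mul]; ring

lemma ff_sum (hp : 0 < p) (R ρ τ : ℕ) (ι' : Idx p) :
    ∑ u ∈ range (p ^ 2), ff cv cw R ρ τ ι' u = 6 * p * ∑ z ∈ range (p ^ 2), cn cv cw R ρ τ ι' z := by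
  unfold ff
  rw [sum_comm]
  have hm : 0 < p ^ 2 := by positivity
  calc _ = ∑ κ : Idx p, ∑ z ∈ range (p ^ 2), cn cv cw R ρ τ ι' z :=
        sum_congr rfl fun κ _ => sum_shift hm _ _
    _ = _ := by rw [sum_const, card_univ, card_idx, smul_eq_mul]

/-- second moment for one curve -/
lemma curve_sq (hp : 0 < p) (c : Fin 3 × Bool) (g : ℕ → ℕ) :
    ∑ u ∈ range (p ^ 2), (∑ x : Fin p, g ((cv.v c x + u) % p ^ 2)) ^ 2 ≤
      12 * p * (∑ z ∈ range (p ^ 2), g z ^ 2) + 4 * (∑ z ∈ range (p ^ 2), g z) ^ 2 := by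
  classical
  set m := p ^ 2 with hm
  have hm0 : 0 < m := by positivity
  set S : Finset (ℕ × (Fin p × Fin p)) := range m ×ˢ univ with hS
  set G : ℕ × (Fin p × Fin p) → ℕ × ℕ := fun w =>
    ((cv.v c w.2.1 + w.1) % m, (cv.v c w.2.2 + w.1) % m) with hG
  have h1 : ∑ u ∈ range m, (∑ x : Fin p, g ((cv.v c x + u) % m)) ^ 2 =
      ∑ w ∈ S, g (G w).1 * g (G w).2 := by
    rw [hS, sum_product]
    refine sum_congr rfl fun u _ => ?_
    rw [pow_two, Fintype.sum_mul_sum, Fintype.sum_prod_type]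
  have hmaps : ∀ w ∈ S, G w ∈ range m ×ˢ range m := by
    intro w _
    rw [mem_product]
    exact ⟨mem_range.2 (Nat.mod_lt _ hm0), mem_range.2 (Nat.mod_lt _ hm0)⟩
  rw [h1, ← sum_fiberwise_of_maps_to hmaps]
  have hinj : ∀ w ∈ S, ∀ w' ∈ S, G w = G w' → w.2 = w'.2 → w = w' := by
    rintro ⟨u, x, x'⟩ hu ⟨u', y, y'⟩ hu' hGG hxx
    rw [hS, mem_product, mem_range] at hu hu'
    simp only at hu hu' hxx
    rw [hG] at hGG
    simp only [Prod.mk.injEq] at hGG hxx ⊢
    obtain ⟨rfl, rfl⟩ := hxx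
    exact ⟨shift_inj hu.1 hu'.1 hGG.1, rfl, rfl⟩
  have hcard : ∀ b ∈ range m ×ˢ range m, (S.filter (fun w => G w = b)).card ≤
      (if b.1 = b.2 then 12 * p else 4) := by
    rintro ⟨z, z'⟩ hb
    rw [mem_product, mem_range, mem_range] at hb
    obtain ⟨hz, hz'⟩ := hb
    simp only at hz hz' ⊢
    split_ifs with hzz
    · subst hzz
      set D : Finset (Fin p × Fin p) := univ.filter (fun w => 0 + cv.v c w.2 ≡ cv.v c w.1 [MOD m])
        with hD
      have hDc : D.card ≤ 12 * p := by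
        rw [hD]
        have : (univ.filter (fun w : Fin p × Fin p => 0 + cv.v c w.2 ≡ cv.v c w.1 [MOD m])).card =
            ∑ x : Fin p, ((univ : Finset (Fin p)).filter
              (fun y => 0 + cv.v c y ≡ cv.v c x [MOD m])).card := by
          simp_rw [card_filter]
          rw [Fintype.sum_prod_type]
        rw [this]
        calc _ ≤ ∑ x : Fin p, 12 := by
              refine sum_le_sum fun x _ => ?_
              refine le_trans ?_ (fib cv hp 0 (cv.v c x))
              refine card_le_card_of_injOn (fun y => (c, y)) ?_ ?_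
              · intro y hy
                rw [mem_coe, mem_filter] at hy ⊢
                exact ⟨mem_univ _, hy.2⟩
              · intro y _ y' _ h
                simpa using h
          _ = 12 * p := by rw [sum_const, card_univ, Fintype.card_fin, smul_eq_mul]; ring
      refine le_trans (card_le_card_of_injOn (fun w => w.2) ?_ ?_) hDc
      · intro w hw
        rw [mem_coe, mem_filter] at hw
        rw [mem_coe, hD, mem_filter]
        refine ⟨mem_univ _, ?_⟩
        have h2 := hw.2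
        rw [hG] at h2
        simp only [Prod.mk.injEq] at h2
        have h3 : cv.v c w.2.1 + w.1 ≡ cv.v c w.2.2 + w.1 [MOD m] := by
          unfold Nat.ModEq
          rw [h2.1, h2.2]
        rw [zero_add]
        exact (Nat.ModEq.add_right_cancel' _ h3).symm
      · intro w hw w' hw' h
        rw [mem_coe, mem_filter] at hw hw'
        exact hinj w hw.1 w' hw'.1 (hw.2.trans hw'.2.symm) h
    · have hzm : ¬ z ≡ z' [MOD m] := by
        intro h
        unfold Nat.ModEq at h
        rw [Nat.mod_eq_of_lt hz, Nat.mod_eq_of_lt hz'] at h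
        exact hzz h
      refine le_trans (card_le_card_of_injOn (fun w => w.2) ?_ ?_) (cv.diff c z z' hzm)
      · intro w hw
        rw [mem_coe, mem_filter] at hw
        rw [mem_coe, mem_filter]
        refine ⟨mem_univ _, ?_⟩
        have h2 := hw.2
        rw [hG] at h2
        simp only [Prod.mk.injEq] at h2
        rw [← hm]
        have f1 : cv.v c w.2.1 + w.1 ≡ z [MOD m] := by
          unfold Nat.ModEq
          rw [h2.1, Nat.mod_eq_of_lt hz]
        have f2 : cv.v c w.2.2 + w.1 ≡ z' [MOD m] := by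
          unfold Nat.ModEq
          rw [h2.2, Nat.mod_eq_of_lt hz']
        apply Nat.ModEq.add_right_cancel' w.1
        calc cv.v c w.2.1 + z' + w.1 = (cv.v c w.2.1 + w.1) + z' := by ring
          _ ≡ z + (cv.v c w.2.2 + w.1) [MOD m] := Nat.ModEq.add f1 f2.symm
          _ = cv.v c w.2.2 + z + w.1 := by ring
      · intro w hw w' hw' h
        rw [mem_coe, mem_filter] at hw hw'
        exact hinj w hw.1 w' hw'.1 (hw.2.trans hw'.2.symm) h
  calc ∑ b ∈ range m ×ˢ range m, ∑ w ∈ S with G w = b, g (G w).1 * g (G w).2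
      = ∑ b ∈ range m ×ˢ range m, (S.filter (fun w => G w = b)).card * (g b.1 * g b.2) := by
        refine sum_congr rfl fun b _ => ?_
        rw [← smul_eq_mul, ← sum_const]
        refine sum_congr rfl fun w hw => ?_
        rw [(mem_filter.1 hw).2]
    _ ≤ ∑ b ∈ range m ×ˢ range m, ((if b.1 = b.2 then 12 * p * (g b.1 * g b.2) else 0) +
          4 * (g b.1 * g b.2)) := by
        refine sum_le_sum fun b hb => ?_
        have h2 := Nat.mul_le_mul_right (g b.1 * g b.2) (hcard b hb)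
        refine h2.trans ?_
        split_ifs
        · omega
        · omega
    _ = 12 * p * (∑ z ∈ range m, g z ^ 2) + 4 * (∑ z ∈ range m, g z) ^ 2 := by
        rw [sum_add_distrib]
        congr 1
        · rw [sum_product, mul_sum]
          refine sum_congr rfl fun z hz => ?_
          rw [sum_ite_eq]
          simp only [hz, if_true]
          ring
        · rw [← mul_sum, pow_two, sum_mul_sum, sum_product]

lemma ff_sq (hp : 0 < p) (hP : 0 < P) (hpP : p ≤ P) (hc : Nat.Coprime (p ^ 2) (P ^ 2)) (R ρ τ : ℕ)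
    (ι' : Idx p) :
    ∑ u ∈ range (p ^ 2), ff cv cw R ρ τ ι' u ^ 2 ≤ 36288 * R ^ 2 * P ^ 2 := by
  have hmq : p ^ 2 ≤ P ^ 2 := Nat.pow_le_pow_left hpP 2
  have h1 : ∀ u, ff cv cw R ρ τ ι' u ^ 2 ≤ 6 * ∑ c : Fin 3 × Bool,
      (∑ x : Fin p, cn cv cw R ρ τ ι' ((cv.v c x + u) % p ^ 2)) ^ 2 := by
    intro u
    unfold ff
    rw [Fintype.sum_prod_type]
    have h2 := sq_sum_le_card_mul_sum_sq (s := (univ : Finset (Fin 3 × Bool)))
      (f := fun c => ∑ x : Fin p, cn cv cw R ρ τ ι' ((cv.v c x + u) % p ^ 2))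
    have h3 : (univ : Finset (Fin 3 × Bool)).card = 6 := by simp
    rw [h3] at h2
    exact h2
  have hS1 := cn_sum cv cw hc hmq R ρ τ ι'
  have hS2 : ∑ z ∈ range (p ^ 2), cn cv cw R ρ τ ι' z ^ 2 ≤ 72 * R ^ 2 * P := by
    calc _ ≤ ∑ z ∈ range (p ^ 2), 12 * R * cn cv cw R ρ τ ι' z := by
          refine sum_le_sum fun z _ => ?_
          rw [pow_two]
          exact Nat.mul_le_mul_right _ (cn_le cv cw hP R ρ τ ι' z)
      _ ≤ 12 * R * (6 * P * R) := by
          rw [← mul_sum]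
          exact Nat.mul_le_mul_left _ hS1
      _ = _ := by ring
  calc ∑ u ∈ range (p ^ 2), ff cv cw R ρ τ ι' u ^ 2
      ≤ ∑ u ∈ range (p ^ 2), 6 * ∑ c : Fin 3 × Bool,
        (∑ x : Fin p, cn cv cw R ρ τ ι' ((cv.v c x + u) % p ^ 2)) ^ 2 := sum_le_sum fun u _ => h1 u
    _ = 6 * ∑ c : Fin 3 × Bool, ∑ u ∈ range (p ^ 2),
        (∑ x : Fin p, cn cv cw R ρ τ ι' ((cv.v c x + u) % p ^ 2)) ^ 2 := by
        rw [← mul_sum, sum_comm]
    _ ≤ 6 * ∑ c : Fin 3 × Bool, (12 * P * (72 * R ^ 2 * P) + 4 * (6 * P * R) ^ 2) := by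
        refine Nat.mul_le_mul_left _ (sum_le_sum fun c _ => ?_)
        refine (curve_sq cv hp c _).trans ?_
        gcongr
    _ = 36288 * R ^ 2 * P ^ 2 := by
        rw [sum_const, card_univ]
        simp only [Fintype.card_prod, Fintype.card_fin, Fintype.card_bool, smul_eq_mul]
        ring

/-- total number of solutions for given `τ` -/
def WW (R ρ τ : ℕ) : ℕ := ∑ ι' : Idx p, ∑ z ∈ range (p ^ 2), cn cv cw R ρ τ ι' z

lemma WW_le (hc : Nat.Coprime (p ^ 2) (P ^ 2)) (hmq : p ^ 2 ≤ P ^ 2) (R ρ τ : ℕ) :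
    WW cv cw R ρ τ ≤ 36 * R * p * P := by
  unfold WW
  calc _ ≤ ∑ ι' : Idx p, 6 * P * R := sum_le_sum fun ι' _ => cn_sum cv cw hc hmq R ρ τ ι'
    _ = _ := by rw [sum_const, card_univ, card_idx, smul_eq_mul]; ring

lemma WW_sum (hP : 0 < P) (R ρ : ℕ) :
    ∑ τ ∈ range (p ^ 2 * p ^ 2), WW cv cw R ρ τ ≤
      36 * R * p * P * (p ^ 2 * (p ^ 2 * p ^ 2 / P ^ 2 + 1)) := by
  classical
  set q := P ^ 2 with hq
  have hq0 : 0 < q := by positivity
  have hone : ∀ y, ((range (p ^ 2 * p ^ 2)).filter (fun τ => τ + y ≡ ρ [MOD q])).card ≤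
      p ^ 2 * p ^ 2 / q + 1 := by
    intro y
    refine le_trans (card_le_card ?_) (card_class _ q (ρ + (q - 1) * y) hq0)
    intro τ hτ
    rw [mem_filter] at hτ ⊢
    refine ⟨hτ.1, ?_⟩
    have e2 := Nat.ModEq.add_right ((q - 1) * y) hτ.2
    have e3 : τ + y + (q - 1) * y = τ + q * y := by
      obtain ⟨q', hq'⟩ : ∃ q', q = q' + 1 := ⟨q - 1, by omega⟩
      rw [hq', Nat.add_sub_cancel]
      ring
    rw [e3] at e2
    refine Nat.ModEq.trans ?_ e2
    exact (Nat.modEq_iff_dvd' (by omega)).2 (by simp)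
  unfold WW cn
  rw [sum_comm]
  calc _ ≤ ∑ ι' : Idx p, p ^ 2 * (R * (6 * P * (p ^ 2 * p ^ 2 / q + 1))) := by
        refine sum_le_sum fun ι' _ => ?_
        rw [sum_comm]
        calc _ ≤ ∑ z ∈ range (p ^ 2), R * (6 * P * (p ^ 2 * p ^ 2 / q + 1)) := by
              refine sum_le_sum fun z _ => ?_
              rw [sum_comm]
              calc _ ≤ ∑ s ∈ Ico 1 R, 6 * P * (p ^ 2 * p ^ 2 / q + 1) := by
                    refine sum_le_sum fun s _ => ?_
                    simp_rw [card_filter]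
                    rw [sum_comm]
                    calc _ ≤ ∑ ι : Idx P, (p ^ 2 * p ^ 2 / q + 1) := by
                          refine sum_le_sum fun ι _ => ?_
                          rw [← card_filter]
                          have e : ∀ τ, τ + cv.w ι' + p ^ 2 * z + s * (p ^ 2 * p ^ 2) + cw.w ι =
                              τ + (cv.w ι' + p ^ 2 * z + s * (p ^ 2 * p ^ 2) + cw.w ι) :=
                            fun τ => by ring
                          simp_rw [e]
                          exact hone _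
                      _ = _ := by rw [sum_const, card_univ, card_idx, smul_eq_mul]
                _ ≤ _ := by
                    rw [sum_const, Nat.card_Ico, smul_eq_mul]
                    exact Nat.mul_le_mul_right _ (Nat.sub_le _ _)
          _ = _ := by rw [sum_const, card_range, smul_eq_mul]
    _ = _ := by rw [sum_const, card_univ, card_idx, smul_eq_mul]; ring

end Pool.Agent.W5h29.SB
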