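import Pool.Agent.W5h29.SB.Par2

/-!
The basis and its representation function, asymptotically.
-/

namespace Pool.Agent.W5h29.SB

open Finset Filter Pool.Agent.R447.SB

lemma bb_mono {i j : ℕ} (h : i ≤ j) : bb i ≤ bb j := by
  unfold bb
  exact Nat.div_le_div_right (Nat.log_mono_right h)

lemma bb_lower : ∀ᶠ n : ℕ in atTop,
    Real.log (Real.log n) / 2 ^ 23 ≤ (bb (Nat.log 16 n - 7) : ℝ) := by
  filter_upwards [tendsto_log_nat.eventually (eventually_ge_atTop (100 : ℝ)),
    tendsto_ll.eventually (eventually_ge_atTop ((2 : ℝ) ^ 24)), eventually_ge_atTop 1] with n h1 h2 hn1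
  set N := Nat.log 16 n with hN
  have hn0 : (0 : ℝ) < n := by exact_mod_cast hn1
  have hNlow : Real.log n / 3 - 1 ≤ (N : ℝ) := by
    have e1 : n < 16 ^ (N + 1) := Nat.lt_pow_succ_log_self (by norm_num) n
    have e2 : Real.log n ≤ ((N + 1 : ℕ) : ℝ) * Real.log 16 := by
      rw [← Real.log_pow]
      refine Real.log_le_log hn0 ?_
      exact_mod_cast e1.le
    have e3 : Real.log 16 ≤ 3 := by
      have : Real.log 16 = 4 * Real.log 2 := by
        rw [show (16 : ℝ) = 2 ^ 4 by norm_num, Real.log_pow]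
        norm_num
      rw [this]
      have := Real.log_two_lt_d9
      linarith
    have e4 : ((N + 1 : ℕ) : ℝ) * Real.log 16 ≤ ((N + 1 : ℕ) : ℝ) * 3 :=
      mul_le_mul_of_nonneg_left e3 (by positivity)
    push_cast at e2 e4
    linarith
  have hN7 : 7 ≤ N := by
    have : (7 : ℝ) ≤ N := by linarith
    exact_mod_cast this
  obtain ⟨m, hm⟩ : ∃ m, N = m + 7 := ⟨N - 7, by omega⟩
  have hNm : N - 7 = m := by omega
  rw [hNm]
  have hmlow : Real.log n / 3 - 8 ≤ (m : ℝ) := by
    have : (N : ℝ) = m + 7 := by rw [hm]; push_cast; ring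
    linarith
  have hm1 : 1 ≤ m := by
    have : (1 : ℝ) ≤ m := by linarith
    exact_mod_cast this
  have hlogm : Real.log (Real.log n) / 2 ≤ Real.log m := by
    refine half_log (by linarith) ?_
    have e1 : Real.log n ≤ (Real.log n / 3 - 8) ^ 2 := by nlinarith
    have e2 : (Real.log n / 3 - 8) ^ 2 ≤ (m : ℝ) ^ 2 := by
      refine pow_le_pow_left₀ (by linarith) hmlow 2
    linarith
  have hl1 := natlog_lower hm1
  have h4 : (Nat.log 2 m : ℝ) ≤ 2 ^ 21 * ((bb m : ℝ) + 1) := by
    have h5 : Nat.log 2 m < 2 ^ 21 * (bb m + 1) := Nat.lt_mul_div_succ _ (by positivity)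
    have h6 : (Nat.log 2 m : ℝ) < ((2 ^ 21 * (bb m + 1) : ℕ) : ℝ) := by exact_mod_cast h5
    push_cast at h6
    linarith
  norm_num at h2 h4 ⊢
  linarith

/-- **Main theorem, technical form.** -/
theorem main2 : ∃ A : Set ℕ, (∀ᶠ n in atTop, ∃ a ∈ A, ∃ b ∈ A, a + b = n) ∧
    ∃ C : ℝ, ∀ᶠ n : ℕ in atTop, (rep A n : ℝ) ≤ C * (Real.log n / Real.log (Real.log n)) := by
  obtain ⟨j0, x, hj0, hx⟩ := exists_params2
  refine ⟨bas 641 j0 x, ?_, 4 * (641 * 641 * 144 * 144 + 12 * 641 * (2 ^ 30)), ?_⟩
  · filter_upwards [eventually_ge_atTop (5 * MM j0)] with n hn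
    exact bas_cover j0 x n hn
  · filter_upwards [tendsto_log_nat.eventually (eventually_ge_atTop (100 : ℝ)),
      tendsto_ll.eventually (eventually_ge_atTop ((2 : ℝ) ^ 24)), eventually_ge_atTop 1,
      bb_lower] with n h1 h2 hn1 hkk
    set N := Nat.log 16 n with hN
    set k := bb (N - 7) with hk
    set ll := Real.log (Real.log n) with hll
    have hll0 : 0 < ll := by
      have : (0 : ℝ) < 2 ^ 24 := by positivity
      linarith
    have hkpos : (1 : ℝ) ≤ k := by
      refine le_trans ?_ hkk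
      rw [le_div_iff₀ (by positivity)]
      norm_num at h2 ⊢
      linarith
    have hkpos' : 0 < k := by
      have : (0 : ℝ) < k := by linarith
      exact_mod_cast this
    have hrep := rep_bound (R := 641) (j0 := j0) le_rfl (K := Kg)
      (N0 := fun j => 2 * (641 + 1) * MM j) (x := x) (fun j => rfl) hx n
      ((6 * N + 60) / k + 1) (by
        intro j _ h4 h5
        unfold Kg
        have h6 : k ≤ bb j := bb_mono (by omega)
        have h7 : (6 * j + 60) / bb j ≤ (6 * N + 60) / k :=
          Nat.div_le_div (by omega) h6 (by omega)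
        omega)
    have hn0 : (0 : ℝ) < n := by exact_mod_cast hn1
    have hNup : (N : ℝ) ≤ Real.log n := by
      have e1 : 16 ^ N ≤ n := Nat.pow_log_le_self 16 (by omega)
      have e2 : ((N : ℕ) : ℝ) * Real.log 16 ≤ Real.log n := by
        rw [← Real.log_pow]
        refine Real.log_le_log (by positivity) ?_
        exact_mod_cast e1
      have e3 : 1 ≤ Real.log 16 := by
        have : Real.log 16 = 4 * Real.log 2 := by
          rw [show (16 : ℝ) = 2 ^ 4 by norm_num, Real.log_pow]
          norm_num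
        rw [this]
        have := Real.log_two_gt_d9
        linarith
      have e4 : (N : ℝ) * 1 ≤ (N : ℝ) * Real.log 16 := mul_le_mul_of_nonneg_left e3 (by positivity)
      linarith
    have hratio : 1 ≤ Real.log n / ll := by
      rw [one_le_div hll0]
      exact (Real.log_le_sub_one_of_pos (by linarith)).trans (by linarith)
    have hdiv : (((6 * N + 60) / k + 1 : ℕ) : ℝ) ≤ 2 ^ 30 * (Real.log n / ll) := by
      have e1 : (((6 * N + 60) / k : ℕ) : ℝ) ≤ ((6 * N + 60 : ℕ) : ℝ) / k := Nat.cast_div_le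
      have e2 : ((6 * N + 60 : ℕ) : ℝ) / k ≤ (66 * Real.log n) / (ll / 2 ^ 23) := by
        refine div_le_div₀ (by positivity) ?_ (by positivity) hkk
        push_cast
        linarith
      have e3 : (66 * Real.log n) / (ll / 2 ^ 23) = 66 * 2 ^ 23 * (Real.log n / ll) := by
        field_simp
      push_cast
      norm_num at e3 ⊢
      linarith
    calc (rep (bas 641 j0 x) n : ℝ)
        ≤ ((4 * (641 * 641 * 144 * 144 + 12 * 641 * ((6 * N + 60) / k + 1)) : ℕ) : ℝ) := by
          exact_mod_cast hrep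
      _ = 4 * (641 * 641 * 144 * 144 + 12 * 641 * (((6 * N + 60) / k + 1 : ℕ) : ℝ)) := by
          push_cast
          ring
      _ ≤ 4 * (641 * 641 * 144 * 144 * (Real.log n / ll) +
          12 * 641 * (2 ^ 30 * (Real.log n / ll))) := by
          linarith
      _ = _ := by ring

end Pool.Agent.W5h29.SB
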