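import Pool.Agent.R447.SB.Basis

/-!
Tail bound for the number of representations between a fixed set and the random set of one scale,
in terms of the average number of elements of the set in the classes which matter.
-/

namespace Pool.Agent.W5h29.SB

open Finset Pool.Agent.R447.SB

variable {p : ℕ} (cv : Curve p)

/-- number of elements of `S` in the class of `ρ - w ι` -/
def yc (S : Finset ℕ) (ρ : ℕ) (ι : Idx p) : ℕ :=
  (S.filter (fun a => a + cv.w ι ≡ ρ [MOD p ^ 2])).card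

/-- the moment of the number of hits with one block -/
lemma hits_moment2 (hp : 0 < p) (S : Finset ℕ) (τ s n : ℕ) (ι : Idx p) (c : Fin 3 × Bool)
    {B : ℝ} (hB : 1 ≤ B) :
    ∑ u ∈ range (p ^ 2), B ^ (hits cv S (τ + cv.w ι + s * (p ^ 2 * p ^ 2)) n c u) ≤
      (p ^ 2 : ℝ) + B * (yc cv S (n + (p ^ 2 - 1) * τ) ι * p) +
        B ^ (yc cv S (n + (p ^ 2 - 1) * τ) ι) * (4 * (yc cv S (n + (p ^ 2 - 1) * τ) ι : ℝ) ^ 2) := by
  classical
  set ρ := n + (p ^ 2 - 1) * τ with hρ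
  set S' := S.filter (fun a => a + cv.w ι ≡ ρ [MOD p ^ 2]) with hS'
  have hm0 : 0 < p ^ 2 := by positivity
  have hy : yc cv S ρ ι = S'.card := rfl
  have hhits : ∀ u, hits cv S (τ + cv.w ι + s * (p ^ 2 * p ^ 2)) n c u =
      hits cv S' (τ + cv.w ι + s * (p ^ 2 * p ^ 2)) n c u := by
    intro u
    unfold hits
    congr 1
    ext a
    simp only [hS', mem_filter, and_assoc]
    refine and_congr_right fun _ => ⟨fun h => ⟨?_, h⟩, fun h => h.2⟩
    obtain ⟨x, hx⟩ := h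
    rw [hρ, ← hx]
    obtain ⟨m', hm'⟩ : ∃ m', p ^ 2 = m' + 1 := ⟨p ^ 2 - 1, by omega⟩
    have e : a + (τ + cv.w ι + s * (p ^ 2 * p ^ 2) + p ^ 2 * ((cv.v c x + u) % p ^ 2)) +
        (p ^ 2 - 1) * τ = a + cv.w ι + p ^ 2 * (τ + s * p ^ 2 + (cv.v c x + u) % p ^ 2) := by
      rw [hm', Nat.add_sub_cancel]
      ring
    rw [e]
    exact (Nat.modEq_iff_dvd' (by omega)).2 (by simp)
  have h := hits_moment cv hp S' S'.card (fun ρ' => card_filter_le _ _)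
    (τ + cv.w ι + s * (p ^ 2 * p ^ 2)) n c hB
  rw [hy]
  simp_rw [hhits]
  exact h

lemma tot_moment2 (hp : 0 < p) (S : Finset ℕ) (μ : ℕ)
    (hS : ∀ ρ, (S.filter (fun a => a ≡ ρ [MOD p ^ 2])).card ≤ μ)
    (T : ℕ) (hT : ∀ ρ, ∑ ι : Idx p, yc cv S ρ ι ≤ T * p)
    (τ n s : ℕ) (c : Fin 3 × Bool) {B : ℝ} (hB : 1 ≤ B) (hBμ : B ^ μ * (4 * (μ : ℝ) ^ 2) ≤ p) :
    ∑ t : (Idx p → Fin (p ^ 2)), B ^ (tot cv S τ n s c (fun ι => (t ι : ℕ))) ≤
      ((p : ℝ) ^ 2) ^ (6 * p) * Real.exp (B * T + 6) := by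
  classical
  set ρ := n + (p ^ 2 - 1) * τ with hρ
  have hp' : (0 : ℝ) < p := by exact_mod_cast hp
  have hm0 : 0 < p ^ 2 := by positivity
  have hyμ : ∀ ι, yc cv S ρ ι ≤ μ := by
    intro ι
    refine le_trans (card_le_card ?_) (hS (ρ + (p ^ 2 - 1) * cv.w ι))
    intro a ha
    rw [mem_filter] at ha ⊢
    refine ⟨ha.1, ?_⟩
    obtain ⟨m', hm'⟩ : ∃ m', p ^ 2 = m' + 1 := ⟨p ^ 2 - 1, by omega⟩
    have h1 := Nat.ModEq.add_right ((p ^ 2 - 1) * cv.w ι) ha.2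
    refine Nat.ModEq.trans ?_ h1
    have e : a + cv.w ι + (p ^ 2 - 1) * cv.w ι = a + p ^ 2 * cv.w ι := by
      rw [hm', Nat.add_sub_cancel]; ring
    rw [e]
    exact (Nat.modEq_iff_dvd' (by omega)).2 (by simp)
  have h1 : ∀ t : (Idx p → Fin (p ^ 2)), B ^ (tot cv S τ n s c (fun ι => (t ι : ℕ))) =
      ∏ ι : Idx p, B ^ (hits cv S (τ + cv.w ι + s * (p ^ 2 * p ^ 2)) n c (t ι)) := by
    intro t
    unfold tot
    rw [prod_pow_eq_pow_sum]
  simp_rw [h1]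
  rw [sum_pi (fun _ : Idx p => Fin (p ^ 2))
    (fun ι y => B ^ (hits cv S (τ + cv.w ι + s * (p ^ 2 * p ^ 2)) n c (y : ℕ)))]
  have h2 : ∀ ι : Idx p, ∑ y : Fin (p ^ 2),
      B ^ (hits cv S (τ + cv.w ι + s * (p ^ 2 * p ^ 2)) n c (y : ℕ)) ≤
      (p : ℝ) ^ 2 * Real.exp ((B * yc cv S ρ ι + 1) / p) := by
    intro ι
    rw [Fin.sum_univ_eq_sum_range (fun u => B ^ (hits cv S (τ + cv.w ι + s * (p ^ 2 * p ^ 2)) n c u))
      (p ^ 2)]
    refine (hits_moment2 cv hp S τ s n ι c hB).trans ?_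
    rw [← hρ]
    set y := yc cv S ρ ι with hy
    have hyμ' : y ≤ μ := hyμ ι
    have e1 : B ^ y * (4 * (y : ℝ) ^ 2) ≤ p := by
      refine le_trans ?_ hBμ
      have : (y : ℝ) ≤ μ := by exact_mod_cast hyμ'
      gcongr
    have h3 : (B * y + 1) / p + 1 ≤ Real.exp ((B * y + 1) / p) := Real.add_one_le_exp _
    calc (p ^ 2 : ℝ) + B * (y * p) + B ^ y * (4 * (y : ℝ) ^ 2)
        ≤ (p : ℝ) ^ 2 + B * (y * p) + p := by linarith
      _ = (p : ℝ) ^ 2 * ((B * y + 1) / p + 1) := by field_simp; ring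
      _ ≤ _ := mul_le_mul_of_nonneg_left h3 (by positivity)
  calc _ ≤ ∏ ι : Idx p, ((p : ℝ) ^ 2 * Real.exp ((B * yc cv S ρ ι + 1) / p)) := by
        refine prod_le_prod (fun ι _ => ?_) (fun ι _ => h2 ι)
        exact sum_nonneg fun _ _ => by positivity
    _ = ((p : ℝ) ^ 2) ^ (6 * p) * Real.exp (∑ ι : Idx p, (B * yc cv S ρ ι + 1) / p) := by
        rw [prod_mul_distrib, prod_const, card_univ, card_idx, ← Real.exp_sum]
    _ ≤ _ := by
        refine mul_le_mul_of_nonneg_left (Real.exp_le_exp.2 ?_) (by positivity)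
        have h4 : ((∑ ι : Idx p, yc cv S ρ ι : ℕ) : ℝ) ≤ T * p := by exact_mod_cast hT ρ
        push_cast at h4
        rw [← sum_div, sum_add_distrib, ← mul_sum, sum_const, card_univ, card_idx, nsmul_eq_mul,
          div_le_iff₀ hp']
        push_cast
        nlinarith [mul_le_mul_of_nonneg_left h4 (by linarith : (0 : ℝ) ≤ B)]

open Classical in
lemma cross_prob2 (hp : 0 < p) (S : Finset ℕ) (μ : ℕ)
    (hS : ∀ ρ, (S.filter (fun a => a ≡ ρ [MOD p ^ 2])).card ≤ μ)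
    (T : ℕ) (hT : ∀ ρ, ∑ ι : Idx p, yc cv S ρ ι ≤ T * p) (R N0 K τ : ℕ)
    {B : ℝ} (hB : 1 ≤ B) (hBμ : B ^ μ * (4 * (μ : ℝ) ^ 2) ≤ p) :
    ((univ.filter (fun t : (Idx p → Fin (p ^ 2)) =>
      BadCross cv S R N0 K τ (fun ι => (t ι : ℕ)))).card : ℝ) ≤
      (N0 * (R * 6) * Real.exp (B * T + 6) / B ^ K) *
        Fintype.card (Idx p → Fin (p ^ 2)) := by
  have hcard : (Fintype.card (Idx p → Fin (p ^ 2)) : ℝ) = ((p : ℝ) ^ 2) ^ (6 * p) := by
    rw [Fintype.card_fun, card_idx, Fintype.card_fin]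
    push_cast
    ring
  set Q := ((p : ℝ) ^ 2) ^ (6 * p) * Real.exp (B * T + 6) with hQ
  have hQ0 : 0 ≤ Q := by positivity
  set T' : Finset (ℕ × (ℕ × (Fin 3 × Bool))) := range N0 ×ˢ (Ico 1 R ×ˢ univ) with hT'
  set F : (ℕ × (ℕ × (Fin 3 × Bool))) → Finset (Idx p → Fin (p ^ 2)) := fun q =>
    univ.filter (fun t : (Idx p → Fin (p ^ 2)) =>
      K ≤ tot cv S τ q.1 q.2.1 q.2.2 (fun ι => (t ι : ℕ))) with hF
  have hsub : univ.filter (fun t : (Idx p → Fin (p ^ 2)) =>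
      BadCross cv S R N0 K τ (fun ι => (t ι : ℕ))) ⊆ T'.biUnion F := by
    intro t ht
    obtain ⟨n, hn, s, hs, c, hK⟩ := (mem_filter.1 ht).2
    rw [mem_biUnion]
    refine ⟨(n, (s, c)), ?_, ?_⟩
    · rw [hT', mem_product, mem_product]
      exact ⟨mem_range.2 hn, hs, mem_univ _⟩
    · rw [hF]
      simp only [mem_filter, mem_univ, true_and]
      exact hK
  have hB0 : (0 : ℝ) < B ^ K := by positivity
  have hFc : ∀ q, ((F q).card : ℝ) * B ^ K ≤ Q := by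
    intro q
    calc ((F q).card : ℝ) * B ^ K = ∑ t ∈ F q, B ^ K := by rw [sum_const, nsmul_eq_mul]
      _ ≤ ∑ t ∈ F q, B ^ (tot cv S τ q.1 q.2.1 q.2.2 (fun ι => (t ι : ℕ))) := by
          refine sum_le_sum fun t ht => ?_
          rw [hF] at ht
          simp only [mem_filter, mem_univ, true_and] at ht
          exact pow_le_pow_right₀ hB ht
      _ ≤ ∑ t : (Idx p → Fin (p ^ 2)), B ^ (tot cv S τ q.1 q.2.1 q.2.2 (fun ι => (t ι : ℕ))) := by
          refine sum_le_sum_of_subset_of_nonneg (subset_univ _) fun _ _ _ => by positivity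
      _ ≤ Q := tot_moment2 cv hp S μ hS T hT τ q.1 q.2.1 q.2.2 hB hBμ
  have hTc : (T'.card : ℝ) ≤ N0 * (R * 6) := by
    rw [hT', card_product, card_product]
    have : (univ : Finset (Fin 3 × Bool)).card = 6 := by simp
    rw [this]
    simp only [card_range, Nat.card_Ico]
    push_cast
    gcongr
    exact_mod_cast Nat.sub_le _ _
  rw [hcard, div_mul_eq_mul_div, le_div_iff₀ hB0]
  calc ((univ.filter (fun t : (Idx p → Fin (p ^ 2)) =>
      BadCross cv S R N0 K τ (fun ι => (t ι : ℕ)))).card : ℝ) * B ^ K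
      ≤ (∑ q ∈ T', ((F q).card : ℝ)) * B ^ K := by
        refine mul_le_mul_of_nonneg_right ?_ hB0.le
        exact_mod_cast (card_le_card hsub).trans card_biUnion_le
    _ = ∑ q ∈ T', ((F q).card : ℝ) * B ^ K := by rw [sum_mul]
    _ ≤ ∑ q ∈ T', Q := sum_le_sum fun q _ => hFc q
    _ = T'.card * Q := by rw [sum_const, nsmul_eq_mul]
    _ ≤ N0 * (R * 6) * Q := mul_le_mul_of_nonneg_right hTc hQ0
    _ = _ := by rw [hQ]; ring

end Pool.Agent.W5h29.SB
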