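import Pool.Agent.W5h29.SB.Avg2

/-!
The exponential moment of the contribution of one scale.
-/

namespace Pool.Agent.W5h29.SB

open Finset Pool.Agent.R447.SB

variable {p P : ℕ} (cv : Curve p) (cw : Curve P)

lemma ff_moment (hp : 0 < p) (hP : 0 < P) (hpP : p ≤ P) (hc : Nat.Coprime (p ^ 2) (P ^ 2))
    (R ρ τ : ℕ) (ι' : Idx p) {θ : ℝ} (hθ : 0 ≤ θ) :
    ∑ u ∈ range (p ^ 2), Real.exp (θ / P * ff cv cw R ρ τ ι' u) ≤
      (p : ℝ) ^ 2 * Real.exp (6 * θ / (p * P) * (∑ z ∈ range (p ^ 2), cn cv cw R ρ τ ι' z : ℕ) +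
        36288 * R ^ 2 * θ ^ 2 * Real.exp (72 * R * θ) / p ^ 2) := by
  have hp' : (0 : ℝ) < p := by exact_mod_cast hp
  have hP' : (0 : ℝ) < P := by exact_mod_cast hP
  have hpP' : (p : ℝ) ≤ P := by exact_mod_cast hpP
  set lam : ℝ := θ / P with hlam
  have hlam0 : 0 ≤ lam := by positivity
  have h1 : ∀ u, Real.exp (lam * ff cv cw R ρ τ ι' u) ≤ 1 + lam * (ff cv cw R ρ τ ι' u : ℝ) +
      lam ^ 2 * Real.exp (72 * R * θ) * ((ff cv cw R ρ τ ι' u ^ 2 : ℕ) : ℝ) := by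
    intro u
    have h2 : (0 : ℝ) ≤ lam * ff cv cw R ρ τ ι' u := by positivity
    have h3 : lam * (ff cv cw R ρ τ ι' u : ℝ) ≤ 72 * R * θ := by
      have h4 : (ff cv cw R ρ τ ι' u : ℝ) ≤ 72 * R * p := by
        exact_mod_cast ff_le cv cw hP R ρ τ ι' u
      calc lam * (ff cv cw R ρ τ ι' u : ℝ) ≤ lam * (72 * R * P) := by
            gcongr
            exact h4.trans (by gcongr)
        _ = 72 * R * θ := by rw [hlam]; field_simp
    refine (exp_two h2).trans ?_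
    have h5 := Real.exp_le_exp.2 h3
    have h6 : (lam * (ff cv cw R ρ τ ι' u : ℝ)) ^ 2 * Real.exp (lam * (ff cv cw R ρ τ ι' u : ℝ)) ≤
        (lam * (ff cv cw R ρ τ ι' u : ℝ)) ^ 2 * Real.exp (72 * R * θ) :=
      mul_le_mul_of_nonneg_left h5 (by positivity)
    have h7 : (lam * (ff cv cw R ρ τ ι' u : ℝ)) ^ 2 * Real.exp (72 * R * θ) =
        lam ^ 2 * Real.exp (72 * R * θ) * ((ff cv cw R ρ τ ι' u ^ 2 : ℕ) : ℝ) := by
      push_cast
      ring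
    linarith
  have hs1 : ∑ u ∈ range (p ^ 2), (ff cv cw R ρ τ ι' u : ℝ) =
      6 * p * ((∑ z ∈ range (p ^ 2), cn cv cw R ρ τ ι' z : ℕ) : ℝ) := by
    exact_mod_cast ff_sum cv cw hp R ρ τ ι'
  have hs2 : ∑ u ∈ range (p ^ 2), ((ff cv cw R ρ τ ι' u ^ 2 : ℕ) : ℝ) ≤
      36288 * R ^ 2 * P ^ 2 := by
    exact_mod_cast ff_sq cv cw hp hP hpP hc R ρ τ ι'
  set Z : ℝ := ((∑ z ∈ range (p ^ 2), cn cv cw R ρ τ ι' z : ℕ) : ℝ) with hZ
  set E := Real.exp (72 * R * θ) with hE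
  have hE0 : 0 < E := Real.exp_pos _
  calc ∑ u ∈ range (p ^ 2), Real.exp (lam * ff cv cw R ρ τ ι' u)
      ≤ ∑ u ∈ range (p ^ 2), (1 + lam * (ff cv cw R ρ τ ι' u : ℝ) +
      lam ^ 2 * E * ((ff cv cw R ρ τ ι' u ^ 2 : ℕ) : ℝ)) := sum_le_sum fun u _ => h1 u
    _ = (p : ℝ) ^ 2 + lam * (6 * p * Z) +
        lam ^ 2 * E * ∑ u ∈ range (p ^ 2), ((ff cv cw R ρ τ ι' u ^ 2 : ℕ) : ℝ) := by
        rw [sum_add_distrib, sum_add_distrib, ← mul_sum, ← mul_sum, hs1]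
        simp
    _ ≤ (p : ℝ) ^ 2 + lam * (6 * p * Z) + lam ^ 2 * E * (36288 * R ^ 2 * P ^ 2) := by
        have := mul_le_mul_of_nonneg_left hs2 (by positivity : 0 ≤ lam ^ 2 * E)
        linarith
    _ = (p : ℝ) ^ 2 * ((6 * θ / (p * P) * Z + 36288 * R ^ 2 * θ ^ 2 * E / p ^ 2) + 1) := by
        rw [hlam]
        field_simp
        ring
    _ ≤ _ := mul_le_mul_of_nonneg_left (Real.add_one_le_exp _) (by positivity)

lemma acl_inner (hp : 0 < p) (hP : 0 < P) (hpP : p ≤ P) (hc : Nat.Coprime (p ^ 2) (P ^ 2))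
    (R ρ τ : ℕ) {θ : ℝ} (hθ : 0 ≤ θ) :
    ∑ t : (Idx p → Fin (p ^ 2)), Real.exp (θ / P * acl cv cw R ρ τ (fun ι => (t ι : ℕ))) ≤
      ((p : ℝ) ^ 2) ^ (6 * p) * Real.exp (6 * θ / (p * P) * WW cv cw R ρ τ +
        217728 * R ^ 2 * θ ^ 2 * Real.exp (72 * R * θ) / p) := by
  classical
  have hp' : (0 : ℝ) < p := by exact_mod_cast hp
  calc ∑ t : (Idx p → Fin (p ^ 2)), Real.exp (θ / P * acl cv cw R ρ τ (fun ι => (t ι : ℕ)))
      ≤ ∑ t : (Idx p → Fin (p ^ 2)), ∏ ι : Idx p,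
        Real.exp (θ / P * ff cv cw R ρ τ ι (t ι : ℕ)) := by
        refine sum_le_sum fun t _ => ?_
        rw [← Real.exp_sum, ← mul_sum]
        refine Real.exp_le_exp.2 (mul_le_mul_of_nonneg_left ?_ (by positivity))
        exact_mod_cast acl_le cv cw R ρ τ (fun ι => (t ι : ℕ))
    _ = ∏ ι : Idx p, ∑ y : Fin (p ^ 2), Real.exp (θ / P * ff cv cw R ρ τ ι (y : ℕ)) :=
        sum_pi (fun _ : Idx p => Fin (p ^ 2))
          (fun ι y => Real.exp (θ / P * ff cv cw R ρ τ ι (y : ℕ)))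
    _ ≤ ∏ ι : Idx p, ((p : ℝ) ^ 2 * Real.exp (6 * θ / (p * P) *
          (∑ z ∈ range (p ^ 2), cn cv cw R ρ τ ι z : ℕ) +
          36288 * R ^ 2 * θ ^ 2 * Real.exp (72 * R * θ) / p ^ 2)) := by
        refine prod_le_prod (fun ι _ => sum_nonneg fun _ _ => by positivity) (fun ι _ => ?_)
        rw [Fin.sum_univ_eq_sum_range (fun u => Real.exp (θ / P * ff cv cw R ρ τ ι u)) (p ^ 2)]
        exact ff_moment cv cw hp hP hpP hc R ρ τ ι hθ
    _ = _ := by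
        rw [prod_mul_distrib, prod_const, card_univ, card_idx, ← Real.exp_sum]
        congr 2
        rw [sum_add_distrib, ← mul_sum, sum_const, card_univ, card_idx, nsmul_eq_mul]
        unfold WW
        push_cast
        field_simp
        ring

/-- The exponential moment for one scale. -/
theorem acl_moment (hp : 0 < p) (hP : 0 < P) (hpP : p ≤ P) (hc : Nat.Coprime (p ^ 2) (P ^ 2))
    {R : ℕ} (hR : 0 < R) (ρ : ℕ) (hqM : P ^ 2 ≤ (R + 1) * (p ^ 2 * p ^ 2)) {θ : ℝ} (hθ : 0 ≤ θ) :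
    ∑ τ ∈ range (p ^ 2 * p ^ 2), ∑ t : (Idx p → Fin (p ^ 2)),
      Real.exp (θ / P * acl cv cw R ρ τ (fun ι => (t ι : ℕ))) ≤
      ((p : ℝ) ^ 2 * p ^ 2) * ((p : ℝ) ^ 2) ^ (6 * p) *
        Real.exp (217728 * R ^ 2 * θ ^ 2 * Real.exp (72 * R * θ) / p) *
        (1 + (R + 2) * ((p : ℝ) ^ 2 / (P ^ 2 : ℕ)) * Real.exp (216 * R * θ)) := by
  have hp' : (0 : ℝ) < p := by exact_mod_cast hp
  have hP' : (0 : ℝ) < P := by exact_mod_cast hP
  have hR' : (0 : ℝ) < R := by exact_mod_cast hR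
  have hmq : p ^ 2 ≤ P ^ 2 := Nat.pow_le_pow_left hpP 2
  set q : ℕ := P ^ 2 with hq
  have hq' : (0 : ℝ) < q := by rw [hq]; positivity
  set E : ℝ := 216 * R * θ with hE
  set D : ℝ := 217728 * R ^ 2 * θ ^ 2 * Real.exp (72 * R * θ) / p with hD
  have h1 : ∀ τ, ∑ t : (Idx p → Fin (p ^ 2)),
      Real.exp (θ / P * acl cv cw R ρ τ (fun ι => (t ι : ℕ))) ≤
      ((p : ℝ) ^ 2) ^ (6 * p) * (Real.exp D *
        (1 + (WW cv cw R ρ τ : ℝ) / (36 * R * p * P) * Real.exp E)) := by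
    intro τ
    refine (acl_inner cv cw hp hP hpP hc R ρ τ hθ).trans ?_
    refine mul_le_mul_of_nonneg_left ?_ (by positivity)
    have hWle : (WW cv cw R ρ τ : ℝ) ≤ 36 * R * p * P := by
      exact_mod_cast WW_le cv cw hc hmq R ρ τ
    have e1 : 6 * θ / (p * P) * (WW cv cw R ρ τ : ℝ) =
        E * ((WW cv cw R ρ τ : ℝ) / (36 * R * p * P)) := by
      rw [hE]
      field_simp
      ring
    rw [e1, Real.exp_add, mul_comm]
    refine mul_le_mul_of_nonneg_left ?_ (Real.exp_pos _).le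
    exact exp_convex (by positivity) (by rw [div_le_one (by positivity)]; exact hWle)
  have h2 : ((∑ τ ∈ range (p ^ 2 * p ^ 2), WW cv cw R ρ τ : ℕ) : ℝ) ≤
      36 * R * p * P * ((p : ℝ) ^ 2 * ((R + 2) * ((p : ℝ) ^ 2 * p ^ 2 / q))) := by
    calc ((∑ τ ∈ range (p ^ 2 * p ^ 2), WW cv cw R ρ τ : ℕ) : ℝ)
        ≤ ((36 * R * p * P * (p ^ 2 * (p ^ 2 * p ^ 2 / q + 1)) : ℕ) : ℝ) := by
          exact_mod_cast WW_sum cv cw hP R ρ
      _ ≤ 36 * R * p * P * ((p : ℝ) ^ 2 * ((p : ℝ) ^ 2 * p ^ 2 / q + 1)) := by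
          push_cast
          gcongr
          calc ((p ^ 2 * p ^ 2 / q : ℕ) : ℝ) ≤ ((p ^ 2 * p ^ 2 : ℕ) : ℝ) / q := Nat.cast_div_le
            _ = (p : ℝ) ^ 2 * p ^ 2 / q := by push_cast; ring
      _ ≤ _ := by
          gcongr
          have h4 : (q : ℝ) ≤ (R + 1) * ((p : ℝ) ^ 2 * p ^ 2) := by exact_mod_cast hqM
          have h5 : 1 ≤ (R + 1) * ((p : ℝ) ^ 2 * p ^ 2 / q) := by
            rw [← mul_div_assoc, one_le_div hq']
            exact h4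
          linarith
  calc ∑ τ ∈ range (p ^ 2 * p ^ 2), ∑ t : (Idx p → Fin (p ^ 2)),
      Real.exp (θ / P * acl cv cw R ρ τ (fun ι => (t ι : ℕ)))
      ≤ ∑ τ ∈ range (p ^ 2 * p ^ 2), ((p : ℝ) ^ 2) ^ (6 * p) * (Real.exp D *
        (1 + (WW cv cw R ρ τ : ℝ) / (36 * R * p * P) * Real.exp E)) :=
        sum_le_sum fun τ _ => h1 τ
    _ = ((p : ℝ) ^ 2) ^ (6 * p) * (Real.exp D * ((p : ℝ) ^ 2 * p ^ 2 +
        ((∑ τ ∈ range (p ^ 2 * p ^ 2), WW cv cw R ρ τ : ℕ) : ℝ) / (36 * R * p * P) *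
          Real.exp E)) := by
        rw [← mul_sum, ← mul_sum, sum_add_distrib, ← sum_mul, ← sum_div]
        congr 2
        congr 1
        · simp
        · push_cast
          rfl
    _ ≤ ((p : ℝ) ^ 2) ^ (6 * p) * (Real.exp D * ((p : ℝ) ^ 2 * p ^ 2 +
        (36 * R * p * P * ((p : ℝ) ^ 2 * ((R + 2) * ((p : ℝ) ^ 2 * p ^ 2 / q)))) / (36 * R * p * P) *
          Real.exp E)) := by
        gcongr
    _ = _ := by
        field_simp

end Pool.Agent.W5h29.SB
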