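import Pool.Agent.W5h29.SB.Sel2
import Pool.Agent.R447.SB.Asym

/-!
Choice of the parameters.
-/

namespace Pool.Agent.W5h29.SB

open Finset Pool.Agent.R447.SB

/-- the slowly growing parameter -/
def bb (j : ℕ) : ℕ := Nat.log 2 j / 2 ^ 21

/-- bound for the cross representations -/
def Kg (j : ℕ) : ℕ := (6 * j + 60) / bb j + 1

section
variable {j : ℕ} (hj : 21 ≤ Nat.log 2 (Nat.log 2 j))
include hj

lemma log_ge : 2 ^ 21 ≤ Nat.log 2 j := by
  have h0 : Nat.log 2 j ≠ 0 := by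
    intro h
    rw [h] at hj
    simp at hj
  exact (Nat.pow_le_pow_right (by norm_num) hj).trans (Nat.pow_log_le_self 2 h0)

lemma bb_pos : 1 ≤ bb j := by
  unfold bb
  exact (Nat.one_le_div_iff (by positivity)).2 (log_ge hj)

lemma bb_le : bb j ≤ 2 ^ kk j := by
  unfold bb
  have h1 : Nat.log 2 j < 2 ^ (Nat.log 2 (Nat.log 2 j) + 1) :=
    Nat.lt_pow_succ_log_self (by norm_num) _
  have h2 : Nat.log 2 (Nat.log 2 j) + 1 = kk j + 21 := by unfold kk; omega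
  rw [h2, pow_add] at h1
  have h3 : Nat.log 2 j / 2 ^ 21 < 2 ^ kk j := by
    rw [Nat.div_lt_iff_lt_mul (by positivity)]
    exact h1
  exact h3.le

lemma bb_mul_le : 2 ^ 21 * bb j ≤ Nat.log 2 j := Nat.mul_div_le _ _

lemma pow_bb_four : (2 ^ bb j) ^ 4 ≤ j := by
  calc (2 ^ bb j) ^ 4 = 2 ^ (4 * bb j) := by rw [← pow_mul, mul_comm]
    _ ≤ 2 ^ Nat.log 2 j := by
        refine Nat.pow_le_pow_right (by norm_num) ?_
        have := bb_mul_le hj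
        omega
    _ ≤ j := pow_log_le hj

lemma j_ge : 2 ^ 200 ≤ j := by
  refine le_trans ?_ (pow_log_le hj)
  refine Nat.pow_le_pow_right (by norm_num) ?_
  have := log_ge hj
  omega

lemma sqrt_ge : 2 ^ 100 ≤ Nat.sqrt j := by
  rw [Nat.le_sqrt']
  calc (2 ^ 100) ^ 2 = 2 ^ 200 := by rw [← pow_mul]
    _ ≤ j := j_ge hj

lemma sqrt_up : j ≤ Nat.sqrt j ^ 2 + 2 * Nat.sqrt j := by
  have h := Nat.lt_succ_sqrt' j
  have h2 : (Nat.sqrt j).succ ^ 2 = Nat.sqrt j ^ 2 + 2 * Nat.sqrt j + 1 := by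
    rw [Nat.succ_eq_add_one]; ring
  rw [h2] at h
  omega

lemma K_eta2 : 6 * j + 60 ≤ bb j * Kg j := by
  unfold Kg
  exact (Nat.lt_mul_div_succ (6 * j + 60) (bb_pos hj)).le

lemma b_mu : (bb j + 2) * mu j ≤ j := by
  have h1 := bb_le hj
  have h2 := mu_nine hj
  have h3 : 1 ≤ 2 ^ kk j := Nat.one_le_two_pow
  calc (bb j + 2) * mu j ≤ (3 * 2 ^ kk j) * mu j := Nat.mul_le_mul_right _ (by omega)
    _ = 3 * (2 ^ kk j * mu j) := by ring
    _ ≤ j := by omega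

lemma cond_B2 : ((2 : ℝ) ^ bb j) ^ mu j * (4 * (mu j : ℝ) ^ 2) ≤ pr j := by
  have h1 : (2 ^ bb j) ^ mu j * (4 * (mu j) ^ 2) ≤ pr j := by
    have h2 : mu j ≤ 2 ^ mu j := Nat.lt_two_pow_self.le
    calc (2 ^ bb j) ^ mu j * (4 * (mu j) ^ 2) ≤ (2 ^ bb j) ^ mu j * (4 * (2 ^ mu j) ^ 2) := by
          gcongr
      _ = 2 ^ ((bb j + 2) * mu j + 2) := by
          rw [← pow_mul, ← pow_mul, pow_add, add_mul, pow_add]
          ring
      _ ≤ 2 ^ (j + 4) := Nat.pow_le_pow_right (by norm_num) (by have := b_mu hj; omega)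
      _ ≤ pr j := (pr_gt j).le
  exact_mod_cast h1

lemma exp_le_two {x : ℝ} (hx : x ≤ 0.6931) (r : ℕ) : Real.exp (x * r) ≤ 2 ^ r := by
  have h1 : Real.exp x ≤ 2 := by
    rw [← Real.exp_log (by norm_num : (0 : ℝ) < 2)]
    refine Real.exp_le_exp.2 ?_
    have := Real.log_two_gt_d9
    linarith
  calc Real.exp (x * r) = (Real.exp x) ^ r := by rw [← Real.exp_nat_mul, mul_comm]
    _ ≤ 2 ^ r := by gcongr

lemma cond_G2 : 4 * (((641 : ℕ) : ℝ) + 2) *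
    Real.exp (216 * ((641 : ℕ) : ℝ) * ((Nat.sqrt j : ℝ) / 200000)) ≤ 4 ^ (Nat.sqrt j) := by
  have h1 : 216 * ((641 : ℕ) : ℝ) * ((Nat.sqrt j : ℝ) / 200000) = 0.69228 * (Nat.sqrt j : ℕ) := by
    push_cast; ring
  rw [h1]
  have h2 := exp_le_two hj (x := 0.69228) (by norm_num) (Nat.sqrt j)
  have h3 : (2 : ℝ) ^ 12 ≤ 2 ^ (Nat.sqrt j) := by
    refine pow_le_pow_right₀ (by norm_num) ?_
    have h4 : 12 ≤ 2 ^ 100 := by norm_num
    exact h4.trans (sqrt_ge hj)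
  calc 4 * (((641 : ℕ) : ℝ) + 2) * Real.exp (0.69228 * (Nat.sqrt j : ℕ))
      ≤ 2 ^ 12 * 2 ^ (Nat.sqrt j) := by
        refine mul_le_mul (by norm_num) h2 (Real.exp_pos _).le (by norm_num)
    _ ≤ 2 ^ (Nat.sqrt j) * 2 ^ (Nat.sqrt j) := mul_le_mul_of_nonneg_right h3 (by positivity)
    _ = 4 ^ (Nat.sqrt j) := by rw [← mul_pow]; norm_num

lemma cond_D {j0 : ℕ} : ∀ i ∈ Irel 641 j0 j,
    217728 * ((641 : ℕ) : ℝ) ^ 2 * ((Nat.sqrt j : ℝ) / 200000) ^ 2 *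
      Real.exp (72 * ((641 : ℕ) : ℝ) * ((Nat.sqrt j : ℝ) / 200000)) ≤ pr i := by
  intro i hi
  have hi2 := (mem_filter.1 hi).2
  set r := Nat.sqrt j with hr
  have hr100 : 2 ^ 100 ≤ r := sqrt_ge hj
  have hrj : r ^ 2 ≤ j := Nat.sqrt_le' j
  have h1 : 72 * ((641 : ℕ) : ℝ) * ((r : ℝ) / 200000) = 0.23076 * (r : ℕ) := by
    push_cast; ring
  rw [h1]
  have h2 := exp_le_two hj (x := 0.23076) (by norm_num) r
  have h3 : 2 ^ (37 + 3 * r) ≤ pr i := by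
    by_contra hcon
    push Not at hcon
    have h4 : pr i ^ 2 * pr i ^ 2 < (2 ^ (37 + 3 * r)) ^ 4 := by
      calc pr i ^ 2 * pr i ^ 2 = pr i ^ 4 := by ring
        _ < _ := Nat.pow_lt_pow_left hcon (by norm_num)
    have h5 : (2 ^ (j + 4)) ^ 2 < pr j ^ 2 := Nat.pow_lt_pow_left (pr_gt j) (by norm_num)
    have h6 : (2 ^ (j + 4)) ^ 2 < 2 ^ 10 * (2 ^ (37 + 3 * r)) ^ 4 := by
      calc (2 ^ (j + 4)) ^ 2 < pr j ^ 2 := h5
        _ ≤ (641 + 1) * (pr i ^ 2 * pr i ^ 2) := hi2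
        _ ≤ 2 ^ 10 * (pr i ^ 2 * pr i ^ 2) := Nat.mul_le_mul_right _ (by norm_num)
        _ ≤ _ := Nat.mul_le_mul_left _ h4.le
    rw [← pow_mul, ← pow_mul, ← pow_add] at h6
    have h7 := (Nat.pow_lt_pow_iff_right (by norm_num : 1 < 2)).1 h6
    have h8 : 100 * r ≤ r ^ 2 := by
      rw [pow_two]
      exact Nat.mul_le_mul_right _ ((by norm_num : 100 ≤ 2 ^ 100).trans hr100)
    have h9 : 100 ≤ r := (by norm_num : 100 ≤ 2 ^ 100).trans hr100
    omega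
  have h4 : (r : ℝ) ≤ 2 ^ r := by exact_mod_cast Nat.lt_two_pow_self.le
  have h5 : ((r : ℝ) / 200000) ^ 2 ≤ (2 ^ r) ^ 2 := by
    refine pow_le_pow_left₀ (by positivity) ?_ 2
    have : (r : ℝ) / 200000 ≤ r := div_le_self (by positivity) (by norm_num)
    linarith
  calc 217728 * ((641 : ℕ) : ℝ) ^ 2 * ((r : ℝ) / 200000) ^ 2 * Real.exp (0.23076 * (r : ℕ))
      ≤ 2 ^ 37 * (2 ^ r) ^ 2 * 2 ^ r := by
        refine mul_le_mul ?_ h2 (Real.exp_pos _).le (by positivity)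
        refine mul_le_mul (by norm_num) h5 (by positivity) (by positivity)
    _ = (2 : ℝ) ^ (37 + 3 * r) := by
        rw [pow_add, mul_comm 3 r, pow_mul]
        ring
    _ ≤ pr i := by exact_mod_cast h3

lemma cond_2b : ((pr j ^ 2 : ℕ) : ℝ) * (2 * 4 ^ ((Nat.sqrt j) ^ 2)) * Real.exp j /
    Real.exp ((Nat.sqrt j : ℝ) / 200000 * (1600000 * Nat.sqrt j : ℕ)) ≤ (1 / 2) ^ (j + 3) := by
  have h1 : ((pr j ^ 2 : ℕ) : ℝ) ≤ 2 ^ (2 * j + 10) := by
    have : pr j ^ 2 ≤ 2 ^ (2 * j + 10) := by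
      calc pr j ^ 2 ≤ (2 ^ (j + 5)) ^ 2 := Nat.pow_le_pow_left (pr_le j) 2
        _ = 2 ^ (2 * j + 10) := by rw [← pow_mul]; congr 1; ring
    exact_mod_cast this
  have h2 : (2 * 4 ^ ((Nat.sqrt j) ^ 2) : ℝ) ≤ 2 ^ (2 * j + 1) := by
    have h3 : (Nat.sqrt j) ^ 2 ≤ j := Nat.sqrt_le' j
    calc (2 * 4 ^ ((Nat.sqrt j) ^ 2) : ℝ) ≤ 2 * 4 ^ j := by gcongr; norm_num
      _ = 2 ^ (2 * j + 1) := by
          rw [pow_add, pow_mul]
          norm_num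
          ring
  have h3 : Real.exp j ≤ 2 ^ (2 * j) := by
    calc Real.exp j = (Real.exp 1) ^ j := by rw [← Real.exp_nat_mul, mul_one]
      _ ≤ 4 ^ j := by
          have : Real.exp 1 ≤ 4 := by
            have := Real.exp_one_lt_d9
            linarith
          gcongr
      _ = 2 ^ (2 * j) := by rw [pow_mul]; norm_num
  set r := Nat.sqrt j with hr
  have hr100 : 2 ^ 100 ≤ r := sqrt_ge hj
  have hjr : j ≤ r ^ 2 + 2 * r := sqrt_up hj
  have h4 : (2 : ℝ) ^ (7 * j + 14) ≤ Real.exp ((r : ℝ) / 200000 * (1600000 * r : ℕ)) := by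
    have e1 : (r : ℝ) / 200000 * (1600000 * r : ℕ) = ((8 * r ^ 2 : ℕ) : ℝ) * 1 := by
      push_cast; ring
    rw [e1, Real.exp_nat_mul]
    have e2 : (2 : ℝ) ≤ Real.exp 1 := by
      have := Real.exp_one_gt_d9
      linarith
    calc (2 : ℝ) ^ (7 * j + 14) ≤ 2 ^ (8 * r ^ 2) := by
          refine pow_le_pow_right₀ (by norm_num) ?_
          have h8 : 100 * r ≤ r ^ 2 := by
            rw [pow_two]
            exact Nat.mul_le_mul_right _ ((by norm_num : 100 ≤ 2 ^ 100).trans hr100)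
          have h9 : 100 ≤ r := (by norm_num : 100 ≤ 2 ^ 100).trans hr100
          omega
      _ ≤ _ := pow_le_pow_left₀ (by norm_num) e2 _
  calc ((pr j ^ 2 : ℕ) : ℝ) * (2 * 4 ^ (r ^ 2)) * Real.exp j /
      Real.exp ((r : ℝ) / 200000 * (1600000 * r : ℕ))
      ≤ 2 ^ (2 * j + 10) * 2 ^ (2 * j + 1) * 2 ^ (2 * j) / 2 ^ (7 * j + 14) := by gcongr
    _ = (1 / 2) ^ (j + 3) := by
        rw [one_div, inv_pow, div_eq_iff (by positivity), ← pow_add, ← pow_add]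
        rw [show 7 * j + 14 = (2 * j + 10 + (2 * j + 1) + 2 * j) + (j + 3) by ring, pow_add]
        field_simp
        rw [← pow_add, ← pow_add]

lemma cond_3b : (((2 * (641 + 1) * MM j : ℕ) : ℝ) * (((641 : ℕ) : ℝ) * 6) *
    Real.exp ((2 : ℝ) ^ bb j * ((6 + 1600000 * Nat.sqrt j : ℕ) : ℝ) + 6) /
      ((2 : ℝ) ^ bb j) ^ Kg j) ≤ (1 / 2) ^ (j + 3) := by
  have h1 : (((2 * (641 + 1) * MM j : ℕ) : ℝ) * (((641 : ℕ) : ℝ) * 6)) ≤ 2 ^ (4 * j + 43) := by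
    have h2 : (2 * (641 + 1) * MM j) * (641 * 6) ≤ 2 ^ (4 * j + 43) := by
      calc (2 * (641 + 1) * MM j) * (641 * 6) ≤ (2 * (641 + 1) * 16 ^ (j + 5)) * (641 * 6) := by
            gcongr
            exact MM_up j
        _ = 4938264 * 16 ^ (j + 5) := by ring
        _ ≤ 2 ^ 23 * 16 ^ (j + 5) := by gcongr; norm_num
        _ = 2 ^ (4 * j + 43) := by
            rw [show (16 : ℕ) = 2 ^ 4 by norm_num, ← pow_mul, ← pow_add]
            congr 1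
            ring
    exact_mod_cast h2
  set r := Nat.sqrt j with hr
  have hr100 : 2 ^ 100 ≤ r := sqrt_ge hj
  have hrj : r ^ 2 ≤ j := Nat.sqrt_le' j
  have hN : 2 * (2 ^ bb j * (6 + 1600000 * r)) ≤ j := by
    have h2 : (2 ^ bb j) ^ 2 ≤ r := by
      rw [hr, Nat.le_sqrt', ← pow_mul]
      exact pow_bb_four hj
    have h3 : 3200012 * 2 ^ bb j ≤ r := by
      rcases Nat.le_total (2 ^ bb j) 3200012 with h | h
      · calc 3200012 * 2 ^ bb j ≤ 3200012 * 3200012 := Nat.mul_le_mul_left _ h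
          _ ≤ 2 ^ 100 := by norm_num
          _ ≤ r := hr100
      · calc 3200012 * 2 ^ bb j ≤ 2 ^ bb j * 2 ^ bb j := Nat.mul_le_mul_right _ h
          _ = (2 ^ bb j) ^ 2 := by ring
          _ ≤ r := h2
    have h4 : 1 ≤ r := (by norm_num : 1 ≤ 2 ^ 100).trans hr100
    calc 2 * (2 ^ bb j * (6 + 1600000 * r)) ≤ 2 * (2 ^ bb j * (6 * r + 1600000 * r)) := by
          gcongr
          omega
      _ = (3200012 * 2 ^ bb j) * r := by ring
      _ ≤ r * r := Nat.mul_le_mul_right _ h3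
      _ ≤ j := by rw [← pow_two]; exact hrj
  have h2 : Real.exp ((2 : ℝ) ^ bb j * ((6 + 1600000 * r : ℕ) : ℝ) + 6) ≤ 2 ^ (j + 9) := by
    have h3 : Real.exp 6 ≤ 512 := by
      have h4 : Real.exp 6 = (Real.exp 1) ^ 6 := by rw [← Real.exp_nat_mul]; norm_num
      rw [h4]
      calc (Real.exp 1) ^ 6 ≤ 2.7182818286 ^ 6 := by
            gcongr
            exact Real.exp_one_lt_d9.le
        _ ≤ 512 := by norm_num
    have h5 : (2 : ℝ) ^ bb j * ((6 + 1600000 * r : ℕ) : ℝ) =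
        ((2 ^ bb j * (6 + 1600000 * r) : ℕ) : ℝ) * 1 := by
      push_cast
      ring
    rw [Real.exp_add, h5, Real.exp_nat_mul]
    have h6 : Real.exp 1 ≤ 4 := by
      have := Real.exp_one_lt_d9
      linarith
    calc (Real.exp 1) ^ (2 ^ bb j * (6 + 1600000 * r)) * Real.exp 6
        ≤ 4 ^ (2 ^ bb j * (6 + 1600000 * r)) * 512 := by gcongr
      _ = (2 : ℝ) ^ (2 * (2 ^ bb j * (6 + 1600000 * r)) + 9) := by
          rw [pow_add, pow_mul (2 : ℝ) 2 (2 ^ bb j * (6 + 1600000 * r))]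
          norm_num
      _ ≤ 2 ^ (j + 9) := pow_le_pow_right₀ (by norm_num) (by omega)
  have h3 : (2 : ℝ) ^ (6 * j + 60) ≤ ((2 : ℝ) ^ bb j) ^ Kg j := by
    rw [← pow_mul]
    exact pow_le_pow_right₀ (by norm_num) (K_eta2 hj)
  calc _ ≤ (2 : ℝ) ^ (4 * j + 43) * 2 ^ (j + 9) / 2 ^ (6 * j + 60) := by gcongr
    _ = (1 / 2) ^ (j + 8) := by
        rw [one_div, inv_pow, div_eq_iff (by positivity), ← pow_add]
        rw [show 6 * j + 60 = (4 * j + 43 + (j + 9)) + (j + 8) by ring, pow_add]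
        field_simp
        rw [← pow_add, ← pow_add]
    _ ≤ (1 / 2) ^ (j + 3) := pow_le_pow_of_le_one (by norm_num) (by norm_num) (by omega)

end

/-- good parameters exist -/
theorem exists_params2 : ∃ (j0 : ℕ) (x : ∀ i, Om i), (∀ j, j0 ≤ j → 21 ≤ Nat.log 2 (Nat.log 2 j)) ∧
    ∀ j, j0 ≤ j → ¬ BadCross (cvs j) (SS 641 j0 j x) 641 (2 * (641 + 1) * MM j) (Kg j) (x j).1
      (fun ι => ((x j).2 ι : ℕ)) := by
  obtain ⟨j0, hj0⟩ := exists_large 21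
  obtain ⟨x, hx⟩ := exists_good2 641 j0 (by norm_num) mu (fun j => 1600000 * Nat.sqrt j) Kg
    (fun j => Nat.sqrt j) (fun j => 2 * (641 + 1) * MM j)
    (fun j => (2 : ℝ) ^ (100 * 2 ^ kk j)) (fun j => (2 : ℝ) ^ bb j)
    (fun j => (Nat.sqrt j : ℝ) / 200000)
    (fun j => one_le_pow₀ (by norm_num)) (fun j => one_le_pow₀ (by norm_num))
    (fun j => by positivity)
    (fun j hj => cond_G (hj0 j hj)) (fun j hj => cond_G2 (hj0 j hj))
    (fun j hj => cond_D (hj0 j hj)) (fun j hj => cond_B2 (hj0 j hj))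
    (fun j hj => cond_1 (hj0 j hj)) (fun j hj => cond_2b (hj0 j hj))
    (fun j hj => cond_3b (hj0 j hj))
  exact ⟨j0, x, hj0, hx⟩

end Pool.Agent.W5h29.SB
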