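import Pool.Agent.W5h29.SB.Mom2

/-!
Selection of good parameters for all scales, with the average class condition.
-/

namespace Pool.Agent.W5h29.SB

open Finset Pool.Agent.R447.SB

/-- the average class condition -/
def AvgOK (R j0 j T : ℕ) (x : ∀ i, Om i) : Prop :=
  ∀ ρ, ∑ ι : Idx (pr j), yc (cvs j) (SS R j0 j x) ρ ι ≤ T * pr j

lemma AvgOK_congr (R j0 j T : ℕ) {x x' : ∀ i, Om i} (h : ∀ i < j, x i = x' i) :
    AvgOK R j0 j T x ↔ AvgOK R j0 j T x' := by
  unfold AvgOK
  rw [SS_congr R j0 j h]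

lemma avg_split (R j0 j : ℕ) (x : ∀ i, Om i) (ρ : ℕ) :
    ∑ ι : Idx (pr j), yc (cvs j) (SS R j0 j x) ρ ι ≤
      6 * pr j + ∑ i ∈ Irel R j0 j, acl (cvs i) (cvs j) R ρ (x i).1 (fun ι => ((x i).2 ι : ℕ)) := by
  classical
  set q := pr j ^ 2 with hq
  have h1 : ∀ ι : Idx (pr j), yc (cvs j) (SS R j0 j x) ρ ι ≤ 1 + ∑ i ∈ Irel R j0 j,
      ((AS R i (x i)).filter (fun a => a + (cvs j).w ι ≡ ρ [MOD q])).card := by
    intro ι
    have hq0 : 0 < q := by rw [hq]; exact pow_pos (pr_pos j) 2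
    have hiff : ∀ a, (a + (cvs j).w ι ≡ ρ [MOD q]) ↔ (a ≡ ρ + (q - 1) * (cvs j).w ι [MOD q]) := by
      intro a
      obtain ⟨m', hm'⟩ : ∃ m', q = m' + 1 := ⟨q - 1, by omega⟩
      have e1 : a + (cvs j).w ι + (q - 1) * (cvs j).w ι = a + q * (cvs j).w ι := by
        rw [hm', Nat.add_sub_cancel]; ring
      have e2 : a + q * (cvs j).w ι ≡ a [MOD q] :=
        ((Nat.modEq_iff_dvd' (by omega)).2 (by simp) : a ≡ a + q * (cvs j).w ι [MOD q]).symm
      constructor
      · intro h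
        have h2 := Nat.ModEq.add_right ((q - 1) * (cvs j).w ι) h
        rw [e1] at h2
        exact e2.symm.trans h2
      · intro h
        apply Nat.ModEq.add_right_cancel' ((q - 1) * (cvs j).w ι)
        rw [e1]
        exact e2.trans h
    unfold yc
    rw [← hq]
    simp_rw [hiff]
    have hsub : (SS R j0 j x).filter (fun a => a ≡ ρ + (q - 1) * (cvs j).w ι [MOD q]) ⊆
        {(ρ + (q - 1) * (cvs j).w ι) % q} ∪
        (Irel R j0 j).biUnion (fun i => (AS R i (x i)).filter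
          (fun a => a ≡ ρ + (q - 1) * (cvs j).w ι [MOD q])) := by
      intro a ha
      rw [mem_filter] at ha
      obtain ⟨ha1, ha2⟩ := ha
      unfold SS at ha1
      rw [mem_biUnion] at ha1
      obtain ⟨i, hi, hai⟩ := ha1
      rw [mem_union, mem_biUnion]
      by_cases h : q ≤ (R + 1) * (pr i ^ 2 * pr i ^ 2)
      · right
        exact ⟨i, mem_filter.2 ⟨hi, h⟩, mem_filter.2 ⟨hai, ha2⟩⟩
      · left
        have h1 := scale_upper (cvs i) (x i).1.2 hai
        rw [mem_singleton]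
        have h2 : a < q := by omega
        unfold Nat.ModEq at ha2
        rw [← ha2, Nat.mod_eq_of_lt h2]
    refine (card_le_card hsub).trans ((card_union_le _ _).trans ?_)
    rw [card_singleton]
    exact Nat.add_le_add_left card_biUnion_le _
  calc _ ≤ ∑ ι : Idx (pr j), (1 + ∑ i ∈ Irel R j0 j,
      ((AS R i (x i)).filter (fun a => a + (cvs j).w ι ≡ ρ [MOD q])).card) :=
        sum_le_sum fun ι _ => h1 ι
    _ = _ := by
        rw [sum_add_distrib, sum_const, card_univ, card_idx, smul_eq_mul, mul_one, sum_comm]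
        rfl

lemma om_sum2 (i : ℕ) (f : ℕ → (Idx (pr i) → Fin (pr i ^ 2)) → ℝ) :
    ∑ y : Om i, f (y.1 : ℕ) y.2 = ∑ τ ∈ range (pr i ^ 2 * pr i ^ 2),
      ∑ t : (Idx (pr i) → Fin (pr i ^ 2)), f τ t := om_sum i f

open Classical in
lemma avg_prob {R j0 j J L T : ℕ} (hR : 0 < R) (hj : j < J) {θ : ℝ} (hθ : 0 ≤ θ)
    (hG : 4 * ((R : ℝ) + 2) * Real.exp (216 * R * θ) ≤ 4 ^ L)
    (hD : ∀ i ∈ Irel R j0 j, 217728 * (R : ℝ) ^ 2 * θ ^ 2 * Real.exp (72 * R * θ) ≤ pr i) :
    ((univ.filter (fun x : (∀ i : Fin J, Om i) => ¬ AvgOK R j0 j (6 + T) (ext Om x))).card : ℝ) ≤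
      ((pr j ^ 2 : ℕ) : ℝ) * (2 * 4 ^ (L ^ 2)) * Real.exp j / Real.exp (θ * T) *
        Fintype.card (∀ i : Fin J, Om i) := by
  set q := pr j ^ 2 with hq
  set Tt : ℕ → (∀ i, Om i) → ℕ := fun ρ x =>
    ∑ i ∈ Irel R j0 j, acl (cvs i) (cvs j) R ρ (x i).1 (fun ι => ((x i).2 ι : ℕ)) with hT
  set Pc : ℝ := ((Fintype.card (∀ i : Fin J, Om i) : ℕ) : ℝ) with hP
  have hP0 : 0 ≤ Pc := by positivity
  have hpj : (0 : ℝ) < pr j := by exact_mod_cast pr_pos j
  have hIJ : Irel R j0 j ⊆ range J := by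
    intro i hi
    exact mem_range.2 ((mem_Ico.1 (mem_filter.1 hi).1).2.trans hj)
  set M : ℝ := Pc * (2 * 4 ^ (L ^ 2)) * Real.exp j with hM
  have hM0 : 0 ≤ M := by positivity
  have hmom : ∀ ρ, ∑ x : (∀ i : Fin J, Om i), Real.exp (θ / pr j * Tt ρ (ext Om x)) ≤ M := by
    intro ρ
    set f : ∀ i : Fin J, Om i → ℝ := fun i y => if (i : ℕ) ∈ Irel R j0 j then
      Real.exp (θ / pr j * acl (cvs i) (cvs j) R ρ y.1 (fun ι => (y.2 ι : ℕ))) else 1 with hf
    have h1 : ∀ x : (∀ i : Fin J, Om i), Real.exp (θ / pr j * Tt ρ (ext Om x)) =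
        ∏ i, f i (x i) := by
      intro x
      set g : ℕ → ℝ := fun i => if i ∈ Irel R j0 j then
        Real.exp (θ / pr j * acl (cvs i) (cvs j) R ρ (ext Om x i).1
          (fun ι => ((ext Om x i).2 ι : ℕ))) else 1 with hg
      have h2 : ∏ i, f i (x i) = ∏ i : Fin J, g i := by
        refine prod_congr rfl fun i _ => ?_
        rw [hf, hg]
        simp only
        rw [ext_apply Om x i i.2]
      rw [h2, Fin.prod_univ_eq_prod_range g J, hg, prod_ite_mem, inter_eq_right.2 hIJ,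
        ← Real.exp_sum, ← mul_sum, hT]
      push_cast
      rfl
    simp_rw [h1]
    rw [sum_pi (fun i : Fin J => Om i) f]
    set h : Fin J → ℝ := fun i => if (i : ℕ) ∈ Irel R j0 j then
      Real.exp 1 * (1 + ((R : ℝ) + 2) * ((pr i : ℝ) ^ 2 / (q : ℝ)) * Real.exp (216 * R * θ)) else 1
      with hh
    have h3 : ∀ i : Fin J, ∑ y, f i y ≤ Fintype.card (Om i) * h i := by
      intro i
      by_cases hi : (i : ℕ) ∈ Irel R j0 j
      · have hi1 := mem_filter.1 hi
        have hij : (i : ℕ) < j := (mem_Ico.1 hi1.1).2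
        have hpi : (0 : ℝ) < pr i := by exact_mod_cast pr_pos i
        have e1 : h i = Real.exp 1 * (1 + ((R : ℝ) + 2) * ((pr i : ℝ) ^ 2 / (q : ℝ)) *
            Real.exp (216 * R * θ)) := by
          rw [hh]; simp only [hi, if_true]
        have e2 : ∑ y, f i y = ∑ y : Om i,
            Real.exp (θ / pr j * acl (cvs i) (cvs j) R ρ y.1 (fun ι => (y.2 ι : ℕ))) := by
          rw [hf]; simp only [hi, if_true]
        rw [e1, e2, om_sum i (fun τ t => Real.exp (θ / pr j * acl (cvs i) (cvs j) R ρ τ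
          (fun ι => (t ι : ℕ)))), card_om]
        refine (acl_moment (cvs i) (cvs j) (pr_pos i) (pr_pos j) (pr_lt hij).le (pr_coprime hij) hR
          ρ hi1.2 hθ).trans ?_
        rw [← hq, mul_assoc]
        refine mul_le_mul_of_nonneg_left ?_ (by positivity)
        refine mul_le_mul_of_nonneg_right ?_ (by positivity)
        refine Real.exp_le_exp.2 ?_
        rw [div_le_one hpi]
        exact hD i hi
      · rw [hh, hf]
        simp [hi]
    calc ∏ i, ∑ y, f i y ≤ ∏ i : Fin J, (Fintype.card (Om i) * h i) := by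
          refine prod_le_prod (fun i _ => sum_nonneg fun y _ => ?_) (fun i _ => h3 i)
          rw [hf]
          simp only
          split_ifs <;> positivity
      _ = Pc * ∏ i : Fin J, h i := by
          rw [prod_mul_distrib, hP, Fintype.card_pi]
          push_cast
          rfl
      _ ≤ Pc * ((2 * 4 ^ (L ^ 2)) * Real.exp j) := by
          refine mul_le_mul_of_nonneg_left ?_ hP0
          have e3 : ∏ i : Fin J, h i = ∏ i ∈ Irel R j0 j, (Real.exp 1 *
              (1 + ((R : ℝ) + 2) * ((pr i : ℝ) ^ 2 / (q : ℝ)) * Real.exp (216 * R * θ))) := by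
            rw [hh, Fin.prod_univ_eq_prod_range (fun i : ℕ => if i ∈ Irel R j0 j then
              Real.exp 1 * (1 + ((R : ℝ) + 2) * ((pr i : ℝ) ^ 2 / (q : ℝ)) *
                Real.exp (216 * R * θ)) else 1) J, prod_ite_mem, inter_eq_right.2 hIJ]
          rw [e3, prod_mul_distrib, mul_comm, prod_const]
          refine mul_le_mul (prod_rel hG (Real.exp_pos _).le) ?_ (by positivity) (by positivity)
          rw [← Real.exp_nat_mul, mul_one]
          refine Real.exp_le_exp.2 ?_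
          have hsub : Irel R j0 j ⊆ range j := by
            intro i hi
            exact mem_range.2 (mem_Ico.1 (mem_filter.1 hi).1).2
          have := card_le_card hsub
          rw [card_range] at this
          exact_mod_cast this
      _ = M := by rw [hM]; ring
  have hsub : univ.filter (fun x : (∀ i : Fin J, Om i) => ¬ AvgOK R j0 j (6 + T) (ext Om x)) ⊆
      (range q).biUnion (fun ρ => univ.filter (fun x : (∀ i : Fin J, Om i) =>
        T * pr j ≤ Tt ρ (ext Om x))) := by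
    intro x hx
    have hx' := (mem_filter.1 hx).2
    unfold AvgOK at hx'
    push Not at hx'
    obtain ⟨ρ, hρ⟩ := hx'
    have hq0 : 0 < q := by rw [hq]; exact pow_pos (pr_pos j) 2
    rw [mem_biUnion]
    refine ⟨ρ % q, mem_range.2 (Nat.mod_lt _ hq0), mem_filter.2 ⟨mem_univ _, ?_⟩⟩
    have h1 := avg_split R j0 j (ext Om x) (ρ % q)
    have h2 : ∑ ι : Idx (pr j), yc (cvs j) (SS R j0 j (ext Om x)) (ρ % q) ι =
        ∑ ι : Idx (pr j), yc (cvs j) (SS R j0 j (ext Om x)) ρ ι := by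
      refine sum_congr rfl fun ι _ => ?_
      unfold yc
      congr 1
      refine filter_congr fun a _ => ?_
      unfold Nat.ModEq
      rw [← hq, Nat.mod_mod]
    rw [h2] at h1
    have h3 : (6 + T) * pr j = 6 * pr j + T * pr j := by ring
    rw [h3] at hρ
    have h4 : 6 * pr j + T * pr j < 6 * pr j + Tt (ρ % q) (ext Om x) := lt_of_lt_of_le hρ h1
    omega
  have hEθ : (0 : ℝ) < Real.exp (θ * T) := Real.exp_pos _
  have hc : ∀ ρ, ((univ.filter (fun x : (∀ i : Fin J, Om i) =>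
      T * pr j ≤ Tt ρ (ext Om x))).card : ℝ) ≤ M / Real.exp (θ * T) := by
    intro ρ
    rw [le_div_iff₀ hEθ]
    calc ((univ.filter (fun x : (∀ i : Fin J, Om i) => T * pr j ≤ Tt ρ (ext Om x))).card : ℝ) *
          Real.exp (θ * T)
        = ∑ x ∈ univ.filter (fun x : (∀ i : Fin J, Om i) => T * pr j ≤ Tt ρ (ext Om x)),
          Real.exp (θ * T) := by
          rw [sum_const, nsmul_eq_mul]
      _ ≤ ∑ x ∈ univ.filter (fun x : (∀ i : Fin J, Om i) => T * pr j ≤ Tt ρ (ext Om x)),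
          Real.exp (θ / pr j * Tt ρ (ext Om x)) := by
          refine sum_le_sum fun x hx => Real.exp_le_exp.2 ?_
          have h1 : ((T * pr j : ℕ) : ℝ) ≤ (Tt ρ (ext Om x) : ℝ) := by
            exact_mod_cast (mem_filter.1 hx).2
          push_cast at h1
          rw [div_mul_eq_mul_div, le_div_iff₀ hpj, mul_assoc]
          exact mul_le_mul_of_nonneg_left h1 hθ
      _ ≤ ∑ x : (∀ i : Fin J, Om i), Real.exp (θ / pr j * Tt ρ (ext Om x)) :=
          sum_le_sum_of_subset_of_nonneg (subset_univ _) fun _ _ _ => by positivity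
      _ ≤ _ := hmom ρ
  calc ((univ.filter (fun x : (∀ i : Fin J, Om i) =>
        ¬ AvgOK R j0 j (6 + T) (ext Om x))).card : ℝ)
      ≤ ((∑ ρ ∈ range q, (univ.filter (fun x : (∀ i : Fin J, Om i) =>
        T * pr j ≤ Tt ρ (ext Om x))).card : ℕ) : ℝ) := by
        exact_mod_cast (card_le_card hsub).trans card_biUnion_le
    _ ≤ ∑ ρ ∈ range q, M / Real.exp (θ * T) := by
        push_cast
        exact sum_le_sum fun ρ _ => hc ρ
    _ = _ := by
        rw [sum_const, card_range, nsmul_eq_mul, hM]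
        ring

open Classical in
lemma cross_prob_horizon2 {R j0 j J μ T N0 K : ℕ} (hj : j < J) {B : ℝ} (hB : 1 ≤ B)
    (hBμ : B ^ μ * (4 * (μ : ℝ) ^ 2) ≤ pr j) :
    ((univ.filter (fun x : (∀ i : Fin J, Om i) => (ClassOK R j0 j μ (ext Om x) ∧
      AvgOK R j0 j T (ext Om x)) ∧
      BadCross (cvs j) (SS R j0 j (ext Om x)) R N0 K (ext Om x j).1
        (fun ι => ((ext Om x j).2 ι : ℕ)))).card : ℝ) ≤
      (N0 * (R * 6) * Real.exp (B * T + 6) / B ^ K) *
        Fintype.card (∀ i : Fin J, Om i) := by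
  set c : ℝ := N0 * (R * 6) * Real.exp (B * T + 6) / B ^ K with hc
  have hc0 : 0 ≤ c := by positivity
  set Q : (∀ i : Fin J, Om i) → Prop := fun x => (ClassOK R j0 j μ (ext Om x) ∧
      AvgOK R j0 j T (ext Om x)) ∧
      BadCross (cvs j) (SS R j0 j (ext Om x)) R N0 K (ext Om x j).1
        (fun ι => ((ext Om x j).2 ι : ℕ)) with hQ
  set F : (∀ i : Fin J, Om i) → ℝ := fun x => if Q x then 1 else 0 with hF
  have h1 : ((univ.filter Q).card : ℝ) = ∑ x, F x := by
    rw [hF, ← sum_filter]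
    simp
  have h2 := sum_update (fun i : Fin J => Om i) F ⟨j, hj⟩
  have hcardpos : (0 : ℝ) < Fintype.card (Om j) := by exact_mod_cast Fintype.card_pos
  have h3 : ∀ x : (∀ i : Fin J, Om i), ∑ y : Om j, F (Function.update x ⟨j, hj⟩ y) ≤
      c * Fintype.card (Om j) := by
    intro x
    have e1 : ∀ y : Om j, ∀ i < j, ext Om (Function.update x ⟨j, hj⟩ y) i = ext Om x i := by
      intro y i hi
      rw [ext_apply Om _ i (by omega), ext_apply Om _ i (by omega), Function.update_of_ne]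
      intro h
      have := congrArg Fin.val h
      simp only at this
      omega
    have e2 : ∀ y : Om j, ext Om (Function.update x ⟨j, hj⟩ y) j = y := by
      intro y
      rw [ext_apply Om _ j hj, Function.update_self]
    have e3 : ∀ y : Om j, Q (Function.update x ⟨j, hj⟩ y) ↔ ((ClassOK R j0 j μ (ext Om x) ∧
        AvgOK R j0 j T (ext Om x)) ∧
        BadCross (cvs j) (SS R j0 j (ext Om x)) R N0 K y.1 (fun ι => (y.2 ι : ℕ))) := by
      intro y
      rw [hQ]
      simp only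
      rw [ClassOK_congr R j0 j μ (e1 y), AvgOK_congr R j0 j T (e1 y), SS_congr R j0 j (e1 y), e2]
    have e4 : ∑ y : Om j, F (Function.update x ⟨j, hj⟩ y) = ∑ y : Om j,
        if ((ClassOK R j0 j μ (ext Om x) ∧ AvgOK R j0 j T (ext Om x)) ∧
        BadCross (cvs j) (SS R j0 j (ext Om x)) R N0 K y.1 (fun ι => (y.2 ι : ℕ))) then (1 : ℝ)
        else 0 := by
      refine sum_congr rfl fun y _ => ?_
      rw [hF]
      simp only
      simp only [e3 y]
    rw [e4]
    by_cases hOK : ClassOK R j0 j μ (ext Om x) ∧ AvgOK R j0 j T (ext Om x)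
    · have e5 : ∑ y : Om j, (if ((ClassOK R j0 j μ (ext Om x) ∧ AvgOK R j0 j T (ext Om x)) ∧
        BadCross (cvs j) (SS R j0 j (ext Om x)) R N0 K y.1 (fun ι => (y.2 ι : ℕ))) then (1 : ℝ)
        else 0) = ∑ τ ∈ range (pr j ^ 2 * pr j ^ 2), ((univ.filter
          (fun t : (Idx (pr j) → Fin (pr j ^ 2)) =>
            BadCross (cvs j) (SS R j0 j (ext Om x)) R N0 K τ (fun ι => (t ι : ℕ)))).card : ℝ) := by
        rw [om_sum j (fun τ t => if ((ClassOK R j0 j μ (ext Om x) ∧ AvgOK R j0 j T (ext Om x)) ∧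
          BadCross (cvs j) (SS R j0 j (ext Om x)) R N0 K τ (fun ι => (t ι : ℕ))) then (1 : ℝ)
          else 0)]
        refine sum_congr rfl fun τ _ => ?_
        rw [← sum_filter]
        simp [hOK.1, hOK.2]
      rw [e5]
      calc _ ≤ ∑ τ ∈ range (pr j ^ 2 * pr j ^ 2), c *
            Fintype.card (Idx (pr j) → Fin (pr j ^ 2)) := by
            refine sum_le_sum fun τ _ => ?_
            exact cross_prob2 (cvs j) (pr_pos j) _ μ hOK.1 T hOK.2 R N0 K τ hB hBμ
        _ = c * Fintype.card (Om j) := by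
            rw [sum_const, card_range, nsmul_eq_mul, Fintype.card_prod, Fintype.card_fin]
            push_cast
            ring
    · simp only [hOK, false_and, if_false, sum_const_zero]
      positivity
  have h4 : (∑ x, F x) * Fintype.card (Om j) ≤
      (c * Fintype.card (∀ i : Fin J, Om i)) * Fintype.card (Om j) := by
    have h2' : (∑ x, F x) * (Fintype.card (Om j) : ℝ) =
      ∑ x : (∀ i : Fin J, Om i), ∑ y : Om j, F (Function.update x ⟨j, hj⟩ y) := h2
    rw [h2']
    calc _ ≤ ∑ x : (∀ i : Fin J, Om i), c * Fintype.card (Om j) := sum_le_sum fun x _ => h3 x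
      _ = _ := by
          rw [sum_const, card_univ, nsmul_eq_mul]
          ring
  rw [h1]
  exact le_of_mul_le_mul_right h4 hcardpos

/-- the bad event at scale `j` -/
def BadAll2 (R j0 : ℕ) (μ T K N0 : ℕ → ℕ) (j : ℕ) (x : ∀ i, Om i) : Prop :=
  j0 ≤ j ∧ (¬ ClassOK R j0 j (μ j) x ∨ ¬ AvgOK R j0 j (6 + T j) x ∨
    ((ClassOK R j0 j (μ j) x ∧ AvgOK R j0 j (6 + T j) x) ∧
    BadCross (cvs j) (SS R j0 j x) R (N0 j) (K j) (x j).1 (fun ι => ((x j).2 ι : ℕ))))

/-- There are parameters which are good at all scales. -/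
theorem exists_good2 (R j0 : ℕ) (hR : 0 < R) (μ T K L N0 : ℕ → ℕ) (B1 B2 θ : ℕ → ℝ)
    (hB1 : ∀ j, 1 ≤ B1 j) (hB2 : ∀ j, 1 ≤ B2 j) (hθ : ∀ j, 0 ≤ θ j)
    (hG : ∀ j, j0 ≤ j → 4 * ((R : ℝ) + 2) * Real.exp (36 * R * (B1 j) ^ R) ≤ 4 ^ (L j))
    (hG2 : ∀ j, j0 ≤ j → 4 * ((R : ℝ) + 2) * Real.exp (216 * R * θ j) ≤ 4 ^ (L j))
    (hD : ∀ j, j0 ≤ j → ∀ i ∈ Irel R j0 j,
      217728 * (R : ℝ) ^ 2 * (θ j) ^ 2 * Real.exp (72 * R * θ j) ≤ pr i)
    (hBμ : ∀ j, j0 ≤ j → (B2 j) ^ (μ j) * (4 * (μ j : ℝ) ^ 2) ≤ pr j)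
    (hb1 : ∀ j, j0 ≤ j → ((pr j ^ 2 : ℕ) : ℝ) * (2 * 4 ^ ((L j) ^ 2)) / (B1 j) ^ (μ j) ≤
      (1 / 2) ^ (j + 2))
    (hb2 : ∀ j, j0 ≤ j → ((pr j ^ 2 : ℕ) : ℝ) * (2 * 4 ^ ((L j) ^ 2)) * Real.exp j /
      Real.exp (θ j * T j) ≤ (1 / 2) ^ (j + 3))
    (hb3 : ∀ j, j0 ≤ j → ((N0 j : ℝ) * (R * 6) * Real.exp (B2 j * (6 + T j : ℕ) + 6) /
      (B2 j) ^ (K j)) ≤ (1 / 2) ^ (j + 3)) :
    ∃ x : ∀ i, Om i, ∀ j, j0 ≤ j →
      ¬ BadCross (cvs j) (SS R j0 j x) R (N0 j) (K j) (x j).1 (fun ι => ((x j).2 ι : ℕ)) := by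
  classical
  obtain ⟨x, hx⟩ := select Om (BadAll2 R j0 μ T K N0)
    (by
      intro j x y hxy h
      refine ⟨h.1, ?_⟩
      have h1 : ∀ i < j, x i = y i := fun i hi => hxy i hi.le
      have h2 := h.2
      rw [ClassOK_congr R j0 j (μ j) h1, AvgOK_congr R j0 j (6 + T j) h1, SS_congr R j0 j h1,
        hxy j le_rfl] at h2
      exact h2)
    (fun j => (1 / 2) ^ (j + 1))
    (by
      intro J
      rw [half_sum]
      have : (0 : ℝ) < (1 / 2) ^ J := by positivity
      linarith)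
    (by
      intro J j hj
      have hP0 : (0 : ℝ) ≤ Fintype.card (∀ i : Fin J, Om i) := by positivity
      by_cases hj0 : j0 ≤ j
      · have h1 := class_prob (j0 := j0) (μ := μ j) hR hj (hB1 j) (hG j hj0)
        have h2 := avg_prob (j0 := j0) (T := T j) hR hj (hθ j) (hG2 j hj0) (hD j hj0)
        have h3 := cross_prob_horizon2 (R := R) (j0 := j0) (T := 6 + T j) (N0 := N0 j) (K := K j) hj
          (hB2 j) (hBμ j hj0)
        have hsub : (univ.filter (fun x : (∀ i : Fin J, Om i) =>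
            BadAll2 R j0 μ T K N0 j (ext Om x))) ⊆
            (univ.filter (fun x : (∀ i : Fin J, Om i) => ¬ ClassOK R j0 j (μ j) (ext Om x))) ∪
            ((univ.filter (fun x : (∀ i : Fin J, Om i) => ¬ AvgOK R j0 j (6 + T j) (ext Om x))) ∪
            (univ.filter (fun x : (∀ i : Fin J, Om i) => (ClassOK R j0 j (μ j) (ext Om x) ∧
              AvgOK R j0 j (6 + T j) (ext Om x)) ∧
              BadCross (cvs j) (SS R j0 j (ext Om x)) R (N0 j) (K j) (ext Om x j).1
                (fun ι => ((ext Om x j).2 ι : ℕ))))) := by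
          intro x hx
          rcases (mem_filter.1 hx).2.2 with h | h | h
          · exact mem_union_left _ (mem_filter.2 ⟨mem_univ _, h⟩)
          · exact mem_union_right _ (mem_union_left _ (mem_filter.2 ⟨mem_univ _, h⟩))
          · exact mem_union_right _ (mem_union_right _ (mem_filter.2 ⟨mem_univ _, h⟩))
        have h4 := (card_le_card hsub).trans ((card_union_le _ _).trans
          (Nat.add_le_add_left (card_union_le _ _) _))
        have h5 : ((univ.filter (fun x : (∀ i : Fin J, Om i) =>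
            BadAll2 R j0 μ T K N0 j (ext Om x))).card : ℝ) ≤
            ((univ.filter (fun x : (∀ i : Fin J, Om i) => ¬ ClassOK R j0 j (μ j) (ext Om x))).card : ℝ) +
            (((univ.filter (fun x : (∀ i : Fin J, Om i) =>
              ¬ AvgOK R j0 j (6 + T j) (ext Om x))).card : ℝ) +
            ((univ.filter (fun x : (∀ i : Fin J, Om i) => (ClassOK R j0 j (μ j) (ext Om x) ∧
              AvgOK R j0 j (6 + T j) (ext Om x)) ∧
              BadCross (cvs j) (SS R j0 j (ext Om x)) R (N0 j) (K j) (ext Om x j).1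
                (fun ι => ((ext Om x j).2 ι : ℕ)))).card : ℝ)) := by
          exact_mod_cast h4
        refine h5.trans ?_
        have h6 := mul_le_mul_of_nonneg_right (hb1 j hj0) hP0
        have h7 := mul_le_mul_of_nonneg_right (hb2 j hj0) hP0
        have h8 := mul_le_mul_of_nonneg_right (hb3 j hj0) hP0
        have h9 : (1 / 2 : ℝ) ^ (j + 1) = (1 / 2) ^ (j + 2) + ((1 / 2) ^ (j + 3) +
            (1 / 2) ^ (j + 3)) := by ring
        rw [h9, add_mul, add_mul]
        exact add_le_add (h1.trans h6) (add_le_add (h2.trans h7) (h3.trans h8))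
      · have : (univ.filter (fun x : (∀ i : Fin J, Om i) =>
            BadAll2 R j0 μ T K N0 j (ext Om x))) = ∅ := by
          rw [filter_eq_empty_iff]
          rintro x _ ⟨h, _⟩
          exact hj0 h
        rw [this]
        simp only [card_empty, Nat.cast_zero]
        positivity)
  refine ⟨x, fun j hj hb => ?_⟩
  have h := hx j
  by_cases h1 : ClassOK R j0 j (μ j) x
  · by_cases h2 : AvgOK R j0 j (6 + T j) x
    · exact h ⟨hj, Or.inr (Or.inr ⟨⟨h1, h2⟩, hb⟩)⟩
    · exact h ⟨hj, Or.inr (Or.inl h2)⟩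
  · exact h ⟨hj, Or.inl h1⟩

end Pool.Agent.W5h29.SB
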